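import Pool.Agent.H68.BDFP.SWd

attribute [local instance] Pool.Agent.H33.BDFP.NV.instNACG Pool.Agent.H33.BDFP.NV.instModule
  Pool.Agent.H33.BDFP.NV.instNormedSpace Pool.Agent.H33.BDFP.NV.instFD
  Pool.Agent.H33.BDFP.NV.instComplete

/-!
Swindle, part e: the splitting of the copies, representations, idempotents.
-/

open scoped ENNReal NNReal

noncomputable section

namespace Pool.Agent.H68.BDFP

open Pool.Agent.H33.BDFP

section

variable {V : ℕ → Type} [∀ j, AddCommGroup (V j)] [∀ j, Module ℂ (V j)]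
  {p : ℝ≥0∞} [Fact (1 ≤ p)] {L R : ℕ → ∀ j, DNorm (V j)}

/-- entry of `E w` -/
lemma sw_E_apply (hp : p ≠ ∞) {e : ∀ i j, V j →ₗ[ℂ] V i} {Eo : CP p L →L[ℂ] CP p L}
    (hE : IsMat Eo (mX L L (mE e))) (w : CP p L) (c i : ℕ) :
    HasSum (fun l => nvHom (L c l) (L c i) (e i l) (w (c, l))) (Eo w (c, i)) := by
  have h := sw_hasSum hp hE w (c, i)
  have hinj : Function.Injective (fun l : ℕ => ((c, l) : ℕ × ℕ)) :=
    fun a b h => (Prod.mk.inj h).2
  rw [← hinj.hasSum_iff] at h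
  · convert h using 1
    funext l
    change nvHom (L c l) (L c i) (e i l) (w (c, l)) =
      nvHom (L c l) (L c i) (mE e (c, i) (c, l) : V l →ₗ[ℂ] V i) (w (c, l))
    rw [mE_self]
  · rintro ⟨d, l⟩ hd
    have h1 : c ≠ d := fun h => hd ⟨l, by rw [h]⟩
    change nvHom (L d l) (L c i) (mE e (c, i) (d, l) : V l →ₗ[ℂ] V i) (w (d, l)) = 0
    rw [mE_ne _ _ _ h1]
    rfl

/-- entry of a block diagonal operator with diagonal coefficients -/
lemma sw_diag_apply (hp : p ≠ ∞) {m : ℕ → ℕ → ℕ → ℂ} {T : CP p L →L[ℂ] CP p L}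
    (hT : IsMat T (mX L L (mM m))) (hm : ∀ j c' c, c' ≠ c → m j c' c = 0) (w : CP p L)
    (c i : ℕ) : T w (c, i) = m i c c • w (c, i) := by
  have h := sw_hasSum hp hT w (c, i)
  refine h.unique ?_
  have h1 : mX L L (mM m) (c, i) (c, i) (w (c, i)) = m i c c • w (c, i) := by
    change nvHom (L c i) (L c i) (mM m (c, i) (c, i) : V i →ₗ[ℂ] V i) (w (c, i)) = _
    rw [mM_self]
    rfl
  rw [← h1]
  refine hasSum_single (c, i) ?_
  rintro ⟨d, l⟩ hd
  change nvHom (L d l) (L c i) (mM m (c, i) (d, l) : V l →ₗ[ℂ] V i) (w (d, l)) = 0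
  by_cases h2 : i = l
  · subst h2
    have h3 : c ≠ d := fun h => hd (by rw [h])
    rw [mM_self, hm _ _ _ h3, zero_smul]
    rfl
  · rw [mM_ne _ _ _ h2]
    rfl

lemma sw_EE [∀ j, FiniteDimensional ℂ (V j)] (hp : p ≠ ∞) {e : ∀ i j, V j →ₗ[ℂ] V i}
    {Eo : CP p L →L[ℂ] CP p L}
    (hE : IsMat Eo (mX L L (mE e)))
    (he : ∀ i j (x : V j) (f : V i →ₗ[ℂ] ℂ), HasSum (fun l => f (e i l (e l j x)))
      (f (e i j x))) (x : CP p L) : Eo (Eo x) = Eo x := by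
  refine sw_isMat_ext hp (T := Eo ∘L Eo) (T' := Eo) (t := mX L L (mE e)) ?_ hE x
  rintro ⟨c, j⟩ x ⟨c', i⟩
  have hs := sw_E_apply hp hE (Eo (lp.single p (c, j) x)) c' i
  have hx : ∀ l, Eo (lp.single p (c, j) x) (c', l) = mX L L (mE e) (c', l) (c, j) x :=
    fun l => hE (c, j) x (c', l)
  simp only [hx] at hs
  rw [ContinuousLinearMap.comp_apply]
  rw [← sub_eq_zero]
  refine (Module.forall_dual_apply_eq_zero_iff ℂ (V := NV (V i) (L c' i)) _).1 fun f => ?_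
  rw [map_sub, sub_eq_zero]
  have h1 := hs.mapL (LinearMap.toContinuousLinearMap f : NV (V i) (L c' i) →L[ℂ] ℂ)
  refine h1.unique ?_
  by_cases hc : c' = c
  · subst hc
    have h2 : mX L L (mE e) (c', i) (c', j) x = nvHom (L c' j) (L c' i) (e i j) x := by
      change nvHom (L c' j) (L c' i) (mE e (c', i) (c', j) : V j →ₗ[ℂ] V i) x = _
      rw [mE_self]
    rw [h2]
    have h4 : (fun l => (LinearMap.toContinuousLinearMap f : NV (V i) (L c' i) →L[ℂ] ℂ)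
        (nvHom (L c' l) (L c' i) (e i l) (mX L L (mE e) (c', l) (c', j) x)))
        = fun l => f (e i l (e l j x)) := by
      funext l
      change f (nvHom (L c' l) (L c' i) (e i l)
        (nvHom (L c' j) (L c' l) (mE e (c', l) (c', j) : V j →ₗ[ℂ] V l) x)) = _
      rw [mE_self]
      rfl
    rw [h4]
    exact he i j x f
  · have h2 : mX L L (mE e) (c', i) (c, j) x = 0 := by
      change nvHom (L c j) (L c' i) (mE e (c', i) (c, j) : V j →ₗ[ℂ] V i) x = _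
      rw [mE_ne _ _ _ hc]
      rfl
    rw [h2, map_zero]
    convert hasSum_zero using 1
    funext l
    change f (nvHom (L c' l) (L c' i) (e i l)
      (nvHom (L c j) (L c' l) (mE e (c', l) (c, j) : V j →ₗ[ℂ] V l) x)) = 0
    rw [mE_ne _ _ _ hc]
    exact (congrArg f (map_zero _)).trans (map_zero f)

/-! ### representations -/

variable {M : Set ℂ} [CompactSpace M]

/-- the representation on the copies -/
def repC (p : ℝ≥0∞) [Fact (1 ≤ p)] (L : ℕ → ∀ j, DNorm (V j))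
    (τ : ∀ j, C(M, ℂ) →ₐ[ℂ] Module.End ℂ (V j))
    (hτ : ∀ c j a x, (L c j).s (τ j a x) ≤ ‖a‖ * (L c j).s x) : Rep M (CP p L) :=
  Rep.lpSum p (fun q : ℕ × ℕ => Rep.ofEnd (L q.1 q.2) (τ q.2) (hτ q.1 q.2))
    (fun _ => Rep.ofEnd_contr _ _ _)

variable {τ : ∀ j, C(M, ℂ) →ₐ[ℂ] Module.End ℂ (V j)}
  {hτL : ∀ c j a x, (L c j).s (τ j a x) ≤ ‖a‖ * (L c j).s x}
  {hτR : ∀ c j a x, (R c j).s (τ j a x) ≤ ‖a‖ * (R c j).s x}

lemma sw_rep_apply (a : C(M, ℂ)) (x : CP p L) (q : ℕ × ℕ) :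
    (repC p L τ hτL).hom a x q = nvHom (L q.1 q.2) (L q.1 q.2) (τ q.2 a) (x q) := rfl

lemma sw_rep_single (a : C(M, ℂ)) (q : ℕ × ℕ) (x : NV (V q.2) (L q.1 q.2)) :
    (repC p L τ hτL).hom a (lp.single p q x) =
      lp.single p q (nvHom (L q.1 q.2) (L q.1 q.2) (τ q.2 a) x) := by
  refine lp.ext (funext fun q' => ?_)
  rw [sw_rep_apply]
  by_cases h : q' = q
  · subst h
    rw [lp.single_apply_self, lp.single_apply_self]
  · rw [lp.single_apply_ne _ _ _ h, lp.single_apply_ne _ _ _ h, map_zero]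

lemma sw_Trep {T : CP p L →L[ℂ] CP p R} {f : ∀ q' q : ℕ × ℕ, V q.2 →ₗ[ℂ] V q'.2}
    (hT : IsMat T (mX L R f)) (a : C(M, ℂ)) :
    IsMat (T ∘L (repC p L τ hτL).hom a) (mX L R (fun q' q => f q' q ∘ₗ τ q.2 a)) := by
  intro q x q'
  rw [ContinuousLinearMap.comp_apply, sw_rep_single, hT]
  rfl

lemma sw_repT {T : CP p L →L[ℂ] CP p R} {f : ∀ q' q : ℕ × ℕ, V q.2 →ₗ[ℂ] V q'.2}
    (hT : IsMat T (mX L R f)) (a : C(M, ℂ)) :
    IsMat ((repC p R τ hτR).hom a ∘L T) (mX L R (fun q' q => τ q'.2 a ∘ₗ f q' q)) := by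
  intro q x q'
  rw [ContinuousLinearMap.comp_apply, sw_rep_apply, hT]
  rfl

lemma sw_sub {T T' : CP p L →L[ℂ] CP p R} {f f' : ∀ q' q : ℕ × ℕ, V q.2 →ₗ[ℂ] V q'.2}
    (hT : IsMat T (mX L R f)) (hT' : IsMat T' (mX L R f')) :
    IsMat (T - T') (mX L R (fun q' q => f q' q - f' q' q)) := by
  intro q x q'
  change T (lp.single p q x) q' - T' (lp.single p q x) q' = _
  rw [hT, hT']
  rfl

lemma sw_M_rep (hp : p ≠ ∞) {m : ℕ → ℕ → ℕ → ℂ} {T : CP p L →L[ℂ] CP p R}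
    (hT : IsMat T (mX L R (mM m))) (a : C(M, ℂ)) (x : CP p L) :
    T ((repC p L τ hτL).hom a x) = (repC p R τ hτR).hom a (T x) := by
  have h1 := sw_Trep (hτL := hτL) hT a
  have h2 := sw_repT (hτR := hτR) hT a
  have h3 : (fun q' q : ℕ × ℕ => (mM m q' q : V q.2 →ₗ[ℂ] V q'.2) ∘ₗ τ q.2 a)
      = (fun q' q : ℕ × ℕ => τ q'.2 a ∘ₗ (mM m q' q : V q.2 →ₗ[ℂ] V q'.2)) := by
    funext q' q
    obtain ⟨c', i⟩ := q'
    obtain ⟨c, j⟩ := q
    change (mM m (c', i) (c, j) : V j →ₗ[ℂ] V i) ∘ₗ τ j a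
      = τ i a ∘ₗ (mM m (c', i) (c, j) : V j →ₗ[ℂ] V i)
    by_cases h : i = j
    · subst h
      rw [mM_self]
      ext v
      simp
    · rw [mM_ne _ _ _ h, LinearMap.zero_comp, LinearMap.comp_zero]
  rw [h3] at h1
  exact sw_isMat_ext hp h1 h2 x

/-! ### splitting -/

section split

variable (hp : p ≠ ∞)

/-- restriction along an injection -/
def lpRestrict {ι ι' : Type} {E : ι → Type} [∀ i, NormedAddCommGroup (E i)]
    [∀ i, NormedSpace ℂ (E i)] {p : ℝ≥0∞} [Fact (1 ≤ p)] (hp : p ≠ ∞) (σ : ι' → ι)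
    (hσ : Function.Injective σ) : lp E p →L[ℂ] lp (fun i' => E (σ i')) p :=
  LinearMap.mkContinuous
    { toFun := fun x => ⟨fun i' => x (σ i'), by
        have hp0 : 0 < p.toReal := ENNReal.toReal_pos
          (zero_lt_one.trans_le (Fact.out : (1 : ℝ≥0∞) ≤ p)).ne' hp
        exact memℓp_gen (((lp.memℓp x).summable hp0).comp_injective hσ)⟩
      map_add' := fun x y => rfl
      map_smul' := fun c x => rfl } 1 (by
    intro x
    have hp0 : 0 < p.toReal := ENNReal.toReal_pos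
          (zero_lt_one.trans_le (Fact.out : (1 : ℝ≥0∞) ≤ p)).ne' hp
    rw [one_mul]
    refine lp.norm_le_of_tsum_le hp0 (norm_nonneg _) ?_
    rw [lp.norm_rpow_eq_tsum hp0 x]
    exact ((((lp.memℓp x).summable hp0).comp_injective hσ)).tsum_le_tsum_of_inj σ hσ
      (fun _ _ => by positivity) (fun _ => le_rfl) ((lp.memℓp x).summable hp0))

lemma lpRestrict_apply {ι ι' : Type} {E : ι → Type} [∀ i, NormedAddCommGroup (E i)]
    [∀ i, NormedSpace ℂ (E i)] {p : ℝ≥0∞} [Fact (1 ≤ p)] (hp : p ≠ ∞) (σ : ι' → ι)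
    (hσ : Function.Injective σ) (x : lp E p) (i' : ι') : lpRestrict hp σ hσ x i' = x (σ i') := rfl

end split

end

end Pool.Agent.H68.BDFP
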