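import Pool.Agent.H68.BDFP.SWa
import Pool.Agent.H68.BDFP.SWe

attribute [local instance] Pool.Agent.H33.BDFP.NV.instNACG Pool.Agent.H33.BDFP.NV.instModule
  Pool.Agent.H33.BDFP.NV.instNormedSpace Pool.Agent.H33.BDFP.NV.instFD
  Pool.Agent.H33.BDFP.NV.instComplete

/-!
Module SW of the project BDFP: the swindle over the levels.
-/

open scoped ENNReal NNReal

noncomputable section

namespace Pool.Agent.H68.BDFP

open Pool.Agent.H33.BDFP

section

variable {V : ℕ → Type} [∀ j, AddCommGroup (V j)] [∀ j, Module ℂ (V j)]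
  {p : ℝ≥0∞} [Fact (1 ≤ p)]

/-! ### splitting of the copies -/

/-- copy zero -/
abbrev C0 (p : ℝ≥0∞) (L : ℕ → ∀ j, DNorm (V j)) : Type := lp (fun j => NV (V j) (L 0 j)) p

/-- the other copies -/
abbrev C1 (p : ℝ≥0∞) (L : ℕ → ∀ j, DNorm (V j)) : Type :=
  lp (fun q : ℕ × ℕ => NV (V q.2) (L (q.1 + 1) q.2)) p

lemma sw_inj0 : Function.Injective (fun j : ℕ => ((0, j) : ℕ × ℕ)) :=
  fun _ _ h => (Prod.mk.inj h).2

lemma sw_inj1 : Function.Injective (fun q : ℕ × ℕ => ((q.1 + 1, q.2) : ℕ × ℕ)) :=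
  fun a b h => Prod.ext (by simpa using (Prod.mk.inj h).1) (Prod.mk.inj h).2

/-- the coordinates of a vector with given parts -/
def glueFun {E : ℕ × ℕ → Type} (x : ∀ j, E (0, j)) (y : ∀ q : ℕ × ℕ, E (q.1 + 1, q.2)) :
    ∀ q, E q
  | (0, j) => x j
  | (c + 1, j) => y (c, j)

lemma sw_hasSum_split (f : ℕ × ℕ → ℝ) {a b : ℝ} (h0 : HasSum (fun j => f (0, j)) a)
    (h1 : HasSum (fun q : ℕ × ℕ => f (q.1 + 1, q.2)) b) : HasSum f (a + b) := by
  have h0' : HasSum (fun q : ℕ × ℕ => if q.1 = 0 then f q else 0) a := by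
    rw [← sw_inj0.hasSum_iff]
    · convert h0 using 1
      funext j
      simp
    · rintro ⟨c, j⟩ h
      refine if_neg fun hc => h ⟨j, ?_⟩
      simp only at hc
      rw [hc]
  have h1' : HasSum (fun q : ℕ × ℕ => if q.1 = 0 then 0 else f q) b := by
    rw [← sw_inj1.hasSum_iff]
    · convert h1 using 1
      funext j
      simp
    · rintro ⟨c, j⟩ h
      refine if_pos ?_
      by_contra hc
      simp only at hc
      exact h ⟨(c - 1, j), by simp only; rw [Nat.sub_add_cancel (by omega)]⟩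
  convert h0'.add h1' using 1
  funext q
  by_cases h : q.1 = 0 <;> simp [h]

/-- the splitting isomorphism -/
def glue (hp : p ≠ ∞) (L : ℕ → ∀ j, DNorm (V j)) : (C0 p L × C1 p L) ≃L[ℂ] CP p L := by
  have hp0 : 0 < p.toReal := ENNReal.toReal_pos
    (zero_lt_one.trans_le (Fact.out : (1 : ℝ≥0∞) ≤ p)).ne' hp
  have hsum : ∀ z : C0 p L × C1 p L,
      HasSum (fun q => ‖(glueFun (E := fun q : ℕ × ℕ => NV (V q.2) (L q.1 q.2))
        (fun j => z.1 j) (fun q => z.2 q) q)‖ ^ p.toReal)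
        (‖z.1‖ ^ p.toReal + ‖z.2‖ ^ p.toReal) := by
    intro z
    refine sw_hasSum_split _ ?_ ?_
    · exact lp.hasSum_norm hp0 z.1
    · exact lp.hasSum_norm hp0 z.2
  exact
    { toFun := fun z => ⟨glueFun (E := fun q : ℕ × ℕ => NV (V q.2) (L q.1 q.2))
        (fun j => z.1 j) (fun q => z.2 q), memℓp_gen (hsum z).summable⟩
      invFun := fun z => (lpRestrict hp _ sw_inj0 z, lpRestrict hp _ sw_inj1 z)
      map_add' := by
        intro z z'
        refine lp.ext (funext fun q => ?_)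
        rcases q with ⟨_ | c, j⟩ <;> rfl
      map_smul' := by
        intro a z
        refine lp.ext (funext fun q => ?_)
        rcases q with ⟨_ | c, j⟩ <;> rfl
      left_inv := by
        intro z
        rfl
      right_inv := by
        intro z
        refine lp.ext (funext fun q => ?_)
        rcases q with ⟨_ | c, j⟩ <;> rfl
      continuous_toFun := by
        refine AddMonoidHomClass.continuous_of_bound (LinearMap.mk (AddHom.mk _ (by
          intro z z'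
          refine lp.ext (funext fun q => ?_)
          rcases q with ⟨_ | c, j⟩ <;> rfl)) (by
          intro a z
          refine lp.ext (funext fun q => ?_)
          rcases q with ⟨_ | c, j⟩ <;> rfl) : (C0 p L × C1 p L) →ₗ[ℂ] CP p L) 2 ?_
        intro z
        have h1 : ‖z.1‖ ≤ ‖z‖ := norm_fst_le z
        have h2 : ‖z.2‖ ≤ ‖z‖ := norm_snd_le z
        have h3 : 1 ≤ p.toReal := by
          have := ENNReal.toReal_mono hp (Fact.out : (1 : ℝ≥0∞) ≤ p)
          simpa using this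
        refine lp.norm_le_of_tsum_le hp0 (by positivity) ?_
        refine ((hsum z).tsum_eq).trans_le ?_
        calc ‖z.1‖ ^ p.toReal + ‖z.2‖ ^ p.toReal ≤ ‖z‖ ^ p.toReal + ‖z‖ ^ p.toReal :=
              add_le_add (Real.rpow_le_rpow (norm_nonneg _) h1 hp0.le)
                (Real.rpow_le_rpow (norm_nonneg _) h2 hp0.le)
          _ = 2 * ‖z‖ ^ p.toReal := by ring
          _ ≤ 2 ^ p.toReal * ‖z‖ ^ p.toReal := by
              refine mul_le_mul_of_nonneg_right ?_ (by positivity)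
              calc (2 : ℝ) = 2 ^ (1 : ℝ) := (Real.rpow_one 2).symm
                _ ≤ 2 ^ p.toReal := Real.rpow_le_rpow_of_exponent_le (by norm_num) h3
          _ = (2 * ‖z‖) ^ p.toReal := (Real.mul_rpow (by norm_num) (norm_nonneg _)).symm
      continuous_invFun := by
        exact (lpRestrict hp _ sw_inj0).continuous.prodMk (lpRestrict hp _ sw_inj1).continuous }

lemma glue_zero (hp : p ≠ ∞) (L : ℕ → ∀ j, DNorm (V j)) (z : C0 p L × C1 p L) (j : ℕ) :
    glue hp L z (0, j) = z.1 j := rfl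

lemma glue_succ (hp : p ≠ ∞) (L : ℕ → ∀ j, DNorm (V j)) (z : C0 p L × C1 p L) (c j : ℕ) :
    glue hp L z (c + 1, j) = z.2 (c, j) := rfl

variable {M : Set ℂ} [CompactSpace M] {L R : ℕ → ∀ j, DNorm (V j)}
  {τ : ∀ j, C(M, ℂ) →ₐ[ℂ] Module.End ℂ (V j)}

lemma glue_rep (hp : p ≠ ∞) (hτL : ∀ c j a x, (L c j).s (τ j a x) ≤ ‖a‖ * (L c j).s x)
    (a : C(M, ℂ)) (z : C0 p L × C1 p L) :
    glue hp L (((Rep.lpSum p (fun j => Rep.ofEnd (L 0 j) (τ j) (hτL 0 j))
          (fun _ => Rep.ofEnd_contr _ _ _)).prod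
        (Rep.lpSum p (fun q : ℕ × ℕ => Rep.ofEnd (L (q.1 + 1) q.2) (τ q.2)
          (hτL (q.1 + 1) q.2)) (fun _ => Rep.ofEnd_contr _ _ _))).hom a z)
      = (repC p L τ hτL).hom a (glue hp L z) := by
  refine lp.ext (funext fun q => ?_)
  rcases q with ⟨_ | c, j⟩ <;> rfl

/-- the idempotent on the copies -/
lemma glue_idem (hp : p ≠ ∞) {e : ∀ i j, V j →ₗ[ℂ] V i} {E P : CP p L →L[ℂ] CP p L}
    (hE : IsMat E (mX L L (mE e)))
    (hP : ∀ w c i, P w (c, i) = (if 1 ≤ c then (1 : ℂ) else 0) • w (c, i))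
    {e0 : C0 p L →L[ℂ] C0 p L}
    (he0 : IsMat e0 (fun i j => NV.map (L 0 j) (L 0 i) (e i j))) (z : C0 p L × C1 p L) :
    glue hp L ((e0.prodMap (ContinuousLinearMap.id ℂ (C1 p L))) z)
      = (P + E ∘L (ContinuousLinearMap.id ℂ (CP p L) - P)) (glue hp L z) := by
  set w := (ContinuousLinearMap.id ℂ (CP p L) - P) (glue hp L z) with hw
  have hw0 : ∀ j, w (0, j) = z.1 j := by
    intro j
    change glue hp L z (0, j) - P (glue hp L z) (0, j) = _
    rw [hP, if_neg (by norm_num), zero_smul, sub_zero]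
    rfl
  have hw1 : ∀ c j, w (c + 1, j) = 0 := by
    intro c j
    change glue hp L z (c + 1, j) - P (glue hp L z) (c + 1, j) = _
    rw [hP, if_pos (by omega), one_smul, sub_self]
  have hE0 : ∀ i, E w (0, i) = e0 z.1 i := by
    intro i
    have h1 := sw_E_apply hp hE w 0 i
    have h2 := sw_hasSum hp he0 z.1 i
    refine h1.unique ?_
    simp only [hw0]
    exact h2
  have hE1 : ∀ c i, E w (c + 1, i) = 0 := by
    intro c i
    have h1 := sw_E_apply hp hE w (c + 1) i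
    refine h1.unique ?_
    simp only [hw1, map_zero]
    exact hasSum_zero
  refine lp.ext (funext fun q => ?_)
  have hsplit : (P + E ∘L (ContinuousLinearMap.id ℂ (CP p L) - P)) (glue hp L z) q
      = P (glue hp L z) q + E w q := rfl
  rw [hsplit]
  rcases q with ⟨_ | c, j⟩
  · rw [hP, if_neg (by norm_num), zero_smul, zero_add, hE0]
    rfl
  · rw [hP, if_pos (by omega), one_smul, hE1, add_zero]
    rfl

end

/-- the swindle for abstract levels -/
theorem sw_abs (hSch : SchStmt) (p : ℝ≥0∞) [Fact (1 ≤ p)] (hp : p ≠ ∞) (M : Set ℂ)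
    [CompactSpace M] (V : ℕ → Type)
    [∀ j, AddCommGroup (V j)] [∀ j, Module ℂ (V j)] [∀ j, FiniteDimensional ℂ (V j)]
    (L R : ℕ → ∀ j, DNorm (V j)) (N0 : ∀ j, DNorm (V j))
    (h1 : ∀ k j x, (L (k + 1) j).s x ≤ (L k j).s x)
    (h2 : ∀ k j x, (L k j).s x ≤ 2 * (L (k + 1) j).s x) (κ : ℕ → ℕ)
    (hLκ : ∀ c j, κ j ≤ c → ∀ x : V j, (L c j).s x = (N0 j).s x)
    (hRL : ∀ c, 1 ≤ c → ∀ j, R c j = L c j)
    (hRκ : ∀ c j, (c = 0 ∨ κ j ≤ c) → ∀ x : V j, (R c j).s x = (N0 j).s x)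
    (τ : ∀ j, C(M, ℂ) →ₐ[ℂ] Module.End ℂ (V j))
    (hτL : ∀ c j a x, (L c j).s (τ j a x) ≤ ‖a‖ * (L c j).s x)
    (hτR : ∀ c j a x, (R c j).s (τ j a x) ≤ ‖a‖ * (R c j).s x)
    (e : ∀ i j, V j →ₗ[ℂ] V i) (b : ℕ → ℕ → ℝ) (C : ℝ)
    (hb0 : ∀ i j, 0 ≤ b i j)
    (heL : ∀ c i j (x : V j), (L c i).s (e i j x) ≤ b i j * (L c j).s x)
    (heR : ∀ c i j (x : V j), (R c i).s (e i j x) ≤ b i j * (R c j).s x)
    (hbrow : ∀ i, Summable (b i) ∧ ∑' j, b i j ≤ C)
    (hbcol : ∀ j, Summable (fun i => b i j) ∧ ∑' i, b i j ≤ C)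
    (hbfar : Summable (fun x : ℕ × ℕ => if nearDiag x then 0 else b x.1 x.2))
    (hee : ∀ i j (x : V j) (f : V i →ₗ[ℂ] ℂ), HasSum (fun l => f (e i l (e l j x)))
      (f (e i j x)))
    (hcomm : ∀ (a : C(M, ℂ)) (ε : ℝ), 0 < ε → ∃ (j₀ : ℕ) (c : ℕ → ℕ → ℝ), (∀ i j, 0 ≤ c i j) ∧
      (∀ l i j x, (R l i).s (e i j (τ j a x) - τ i a (e i j x)) ≤ c i j * (R l j).s x) ∧
      (∀ i, Summable (c i)) ∧ (∀ j, Summable (fun i => c i j)) ∧
      (∀ i, j₀ ≤ i → ∑' j, c i j ≤ ε) ∧ (∀ j, j₀ ≤ j → ∑' i, c i j ≤ ε))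
    (e0 : C0 p L →L[ℂ] C0 p L) (ei : C0 p R →L[ℂ] C0 p R)
    (he0 : IsMat e0 (fun i j => NV.map (L 0 j) (L 0 i) (e i j)))
    (hei : IsMat ei (fun i j => NV.map (R 0 j) (R 0 i) (e i j)))
    (K : ℕ → ℕ) (g g' : ℕ → ℕ → ℕ → ℂ)
    (hgK : ∀ j c' c, K j < c' ∨ K j < c → g j c' c = (if c' = c then 1 else 0) ∧
      g' j c' c = (if c' = c then 1 else 0))
    (hgrow : ∀ j c (S : Finset ℕ), ∑ d ∈ S, ‖g j c d‖ ≤ 8 ∧ ∑ d ∈ S, ‖g j d c‖ ≤ 8 ∧
      ∑ d ∈ S, ‖g' j c d‖ ≤ 8 ∧ ∑ d ∈ S, ‖g' j d c‖ ≤ 8)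
    (hginv : ∀ j c' c, c' ≤ K j → c ≤ K j →
      ∑ d ∈ Finset.range (K j + 1), g' j c' d * g j d c = (if c' = c then 1 else 0) ∧
      ∑ d ∈ Finset.range (K j + 1), g j c' d * g' j d c = (if c' = c then 1 else 0))
    (hgadm : ∀ j c' c, g j c' c ≠ 0 →
      c' = c + 1 ∨ (c' = c ∧ 1 ≤ c) ∨ (κ j ≤ c ∧ (c' = 0 ∨ κ j ≤ c')))
    (hgadm' : ∀ j c' c, g' j c' c ≠ 0 →
      c = c' + 1 ∨ (c' = c ∧ 1 ≤ c) ∨ (κ j ≤ c' ∧ (c = 0 ∨ κ j ≤ c)))
    (hgslow : ∀ ε : ℝ, 0 < ε → ∃ j₀ : ℕ, ∀ j, j₀ ≤ j → ∀ c (S : Finset ℕ),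
      ∑ d ∈ S, ‖g (j + 1) c d - g j c d‖ ≤ ε ∧ ∑ d ∈ S, ‖g (j + 1) d c - g j d c‖ ≤ ε ∧
      ∑ d ∈ S, ‖g' (j + 1) c d - g' j c d‖ ≤ ε ∧ ∑ d ∈ S, ‖g' (j + 1) d c - g' j d c‖ ≤ ε)
    (hgs : ∀ j c' c, g (j + 1) c' c ≠ g j c' c →
      κ j ≤ c ∧ κ (j + 1) ≤ c ∧ (c' = 0 ∨ (κ j ≤ c' ∧ κ (j + 1) ≤ c')))
    (hgs' : ∀ j c' c, g' (j + 1) c' c ≠ g' j c' c →
      κ j ≤ c' ∧ κ (j + 1) ≤ c' ∧ (c = 0 ∨ (κ j ≤ c ∧ κ (j + 1) ≤ c))) :
    EssEquiv
      ((Rep.lpSum p (fun j => Rep.ofEnd (L 0 j) (τ j) (hτL 0 j))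
          (fun _ => Rep.ofEnd_contr _ _ _)).prod
        (Rep.lpSum p (fun q : ℕ × ℕ => Rep.ofEnd (L (q.1 + 1) q.2) (τ q.2)
          (hτL (q.1 + 1) q.2)) (fun _ => Rep.ofEnd_contr _ _ _)))
      (e0.prodMap (ContinuousLinearMap.id ℂ (C1 p L)))
      ((Rep.lpSum p (fun j => Rep.ofEnd (R 0 j) (τ j) (hτR 0 j))
          (fun _ => Rep.ofEnd_contr _ _ _)).prod
        (Rep.lpSum p (fun q : ℕ × ℕ => Rep.ofEnd (R (q.1 + 1) q.2) (τ q.2)
          (hτR (q.1 + 1) q.2)) (fun _ => Rep.ofEnd_contr _ _ _)))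
      (ei.prodMap (ContinuousLinearMap.id ℂ (C1 p R))) := by
  -- admissibility
  have hadm1 : ∀ j c' c, g j c' c ≠ 0 → ∀ x : V j, (R c' j).s x ≤ (L c j).s x := by
    intro j c' c hg x
    rcases hgadm j c' c hg with h | ⟨h, h'⟩ | ⟨h, h'⟩
    · subst h
      rw [hRL (c + 1) (by omega)]
      exact h1 c j x
    · subst h
      rw [hRL c' h']
    · rw [hRκ c' j h' x, hLκ c j h x]
  have hadm1' : ∀ j c' c, g' j c' c ≠ 0 → ∀ x : V j, (L c' j).s x ≤ 2 * (R c j).s x := by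
    intro j c' c hg x
    have hpos : 0 ≤ (R c j).s x := apply_nonneg _ _
    rcases hgadm' j c' c hg with h | ⟨h, h'⟩ | ⟨h, h'⟩
    · subst h
      rw [hRL (c' + 1) (by omega)]
      exact h2 c' j x
    · subst h
      rw [hRL c' h'] at hpos ⊢
      linarith
    · rw [hRκ c j h' x] at hpos ⊢
      rw [hLκ c' j h x]
      linarith
  have hadm2 : ∀ j c' c, g j c' c ≠ 0 → ∀ x : V j, (R c' j).s x ≤ 2 * (L c j).s x := by
    intro j c' c hg x
    have h := hadm1 j c' c hg x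
    have hpos : 0 ≤ (L c j).s x := apply_nonneg _ _
    linarith
  have hC : 0 ≤ C := (tsum_nonneg (hb0 0)).trans (hbrow 0).2
  have hbC : ∀ i (T : Finset ℕ), ∑ j ∈ T, b i j ≤ C ∧ ∑ j ∈ T, b j i ≤ C := fun i T =>
    ⟨((hbrow i).1.sum_le_tsum T fun j _ => hb0 i j).trans (hbrow i).2,
      ((hbcol i).1.sum_le_tsum T fun j _ => hb0 j i).trans (hbcol i).2⟩
  have hgr : ∀ j c (T : Finset ℕ), ∑ d ∈ T, ‖g j c d‖ ≤ 8 ∧ ∑ d ∈ T, ‖g j d c‖ ≤ 8 :=
    fun j c T => ⟨(hgrow j c T).1, (hgrow j c T).2.1⟩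
  have hgr' : ∀ j c (T : Finset ℕ), ∑ d ∈ T, ‖g' j c d‖ ≤ 8 ∧ ∑ d ∈ T, ‖g' j d c‖ ≤ 8 :=
    fun j c T => ⟨(hgrow j c T).2.2.1, (hgrow j c T).2.2.2⟩
  -- the diagonal part
  set m1 : ℕ → ℕ → ℕ → ℂ := fun _ c' c => if c' = c ∧ 1 ≤ c then 1 else 0 with hm1
  have hm1r : ∀ j c (T : Finset ℕ), ∑ d ∈ T, ‖m1 j c d‖ ≤ 1 ∧ ∑ d ∈ T, ‖m1 j d c‖ ≤ 1 := by
    intro j c T
    constructor
    · calc ∑ d ∈ T, ‖m1 j c d‖ ≤ ∑ d ∈ T, (if c = d then (1 : ℝ) else 0) := by
            refine Finset.sum_le_sum fun d _ => ?_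
            rw [hm1]
            by_cases h : c = d <;> by_cases h' : 1 ≤ d <;> simp [h, h']
        _ ≤ 1 := by rw [Finset.sum_ite_eq]; split_ifs <;> norm_num
    · calc ∑ d ∈ T, ‖m1 j d c‖ ≤ ∑ d ∈ T, (if d = c then (1 : ℝ) else 0) := by
            refine Finset.sum_le_sum fun d _ => ?_
            rw [hm1]
            by_cases h : d = c <;> by_cases h' : 1 ≤ c <;> simp [h, h']
        _ ≤ 1 := by rw [Finset.sum_ite_eq']; split_ifs <;> norm_num
  have hm1a : ∀ j c' c, m1 j c' c ≠ 0 → c' = c ∧ 1 ≤ c := by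
    intro j c' c h
    by_contra h'
    exact h (if_neg h')
  have hm1m1 : ∀ (j c' c : ℕ), ∃ U : Finset ℕ, (∀ d, d ∉ U → m1 j c' d * m1 j d c = 0) ∧
      ∑ d ∈ U, m1 j c' d * m1 j d c = m1 j c' c := by
    intro j c' c
    refine ⟨{c}, fun d hd => ?_, ?_⟩
    · have h : m1 j d c = 0 := if_neg fun h => hd (by simp [h.1])
      rw [h, mul_zero]
    · rw [Finset.sum_singleton, hm1]
      by_cases h : c' = c <;> by_cases h' : 1 ≤ c <;> simp [h, h']
  -- the operators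
  obtain ⟨G, hG⟩ := sw_existsM (L := L) (R := R) (p := p) hSch hp g (D := 8) (κ₀ := 2)
    (by norm_num) (by norm_num) hgr hadm2
  obtain ⟨G', hG'⟩ := sw_existsM (L := R) (R := L) (p := p) hSch hp g' (D := 8) (κ₀ := 2)
    (by norm_num) (by norm_num) hgr' hadm1'
  obtain ⟨I, hI⟩ := sw_existsM (L := L) (R := R) (p := p) hSch hp m1 (D := 1) (κ₀ := 1)
    (by norm_num) (by norm_num) hm1r (by
      intro j c' c h x
      obtain ⟨rfl, h'⟩ := hm1a j c' c h
      rw [one_mul, hRL c' h'])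
  obtain ⟨I', hI'⟩ := sw_existsM (L := R) (R := L) (p := p) hSch hp m1 (D := 1) (κ₀ := 1)
    (by norm_num) (by norm_num) hm1r (by
      intro j c' c h x
      obtain ⟨rfl, h'⟩ := hm1a j c' c h
      rw [one_mul, hRL c' h'])
  obtain ⟨E, hE⟩ := sw_existsE (L := L) (p := p) hSch hp e hC hb0 hbC heL
  obtain ⟨F, hF⟩ := sw_existsE (L := R) (p := p) hSch hp e hC hb0 hbC heR
  -- inverse
  have hinv1 : ∀ j c' c, ∃ U : Finset ℕ, (∀ d, d ∉ U → g' j c' d * g j d c = 0) ∧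
      ∑ d ∈ U, g' j c' d * g j d c = (if c' = c then 1 else 0) := by
    intro j c' c
    by_cases hc : K j < c
    · refine ⟨{c}, fun d hd => ?_, ?_⟩
      · rw [hgK j d c (Or.inr hc) |>.1, if_neg (fun h => hd (by simp [h])), mul_zero]
      · rw [Finset.sum_singleton, (hgK j c c (Or.inr hc)).1, if_pos rfl, mul_one,
          (hgK j c' c (Or.inr hc)).2]
    · by_cases hc' : K j < c'
      · refine ⟨{c'}, fun d hd => ?_, ?_⟩
        · rw [(hgK j c' d (Or.inl hc')).2, if_neg (fun h => hd (by simp [h])), zero_mul]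
        · rw [Finset.sum_singleton, (hgK j c' c' (Or.inl hc')).2, if_pos rfl, one_mul,
            (hgK j c' c (Or.inl hc')).1]
      · refine ⟨Finset.range (K j + 1), fun d hd => ?_, (hginv j c' c (by omega) (by omega)).1⟩
        have hd' : K j < d := by
          by_contra h
          exact hd (Finset.mem_range.2 (by omega))
        rw [(hgK j d c (Or.inl hd')).1, if_neg (by omega), mul_zero]
  have hinv2 : ∀ j c' c, ∃ U : Finset ℕ, (∀ d, d ∉ U → g j c' d * g' j d c = 0) ∧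
      ∑ d ∈ U, g j c' d * g' j d c = (if c' = c then 1 else 0) := by
    intro j c' c
    by_cases hc : K j < c
    · refine ⟨{c}, fun d hd => ?_, ?_⟩
      · rw [hgK j d c (Or.inr hc) |>.2, if_neg (fun h => hd (by simp [h])), mul_zero]
      · rw [Finset.sum_singleton, (hgK j c c (Or.inr hc)).2, if_pos rfl, mul_one,
          (hgK j c' c (Or.inr hc)).1]
    · by_cases hc' : K j < c'
      · refine ⟨{c'}, fun d hd => ?_, ?_⟩
        · rw [(hgK j c' d (Or.inl hc')).1, if_neg (fun h => hd (by simp [h])), zero_mul]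
        · rw [Finset.sum_singleton, (hgK j c' c' (Or.inl hc')).1, if_pos rfl, one_mul,
            (hgK j c' c (Or.inl hc')).2]
      · refine ⟨Finset.range (K j + 1), fun d hd => ?_, (hginv j c' c (by omega) (by omega)).2⟩
        have hd' : K j < d := by
          by_contra h
          exact hd (Finset.mem_range.2 (by omega))
        rw [(hgK j d c (Or.inl hd')).2, if_neg (by omega), mul_zero]
  have e1 : ∀ x, G' (G x) = x := fun x =>
    sw_isMat_ext hp (sw_MM hp hG hG' hinv1) sw_isMat_id x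
  have e2 : ∀ y, G (G' y) = y := fun y =>
    sw_isMat_ext hp (T := G ∘L G') (T' := ContinuousLinearMap.id ℂ (CP p R))
      (sw_MM hp hG' hG hinv2) (sw_isMat_id (p := p) (L := R)) y
  have hP := sw_MM hp hI hI' hm1m1
  have hP' := sw_MM hp hI' hI hm1m1
  have e3 : ∀ x, I (I' (I x)) = I x := fun x =>
    sw_isMat_ext hp (sw_MM hp hP hI hm1m1) hI x
  have e4 : ∀ y, I' (I (I' y)) = I' y := fun y =>
    sw_isMat_ext hp (sw_MM hp hP' hI' hm1m1) hI' y
  have e5 : ∀ x, I (E x) = F (I x) := fun x =>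
    sw_isMat_ext hp (sw_ME hp hI hE) (sw_EM hp hI hF) x
  have e6 : ∀ y, I' (F y) = E (I' y) := fun y =>
    sw_isMat_ext hp (sw_ME hp hI' hF) (sw_EM hp hI' hE) y
  have hKc : IsCompactOperator (⇑(G ∘L E - F ∘L G)) := by
    refine sw_slow (L := L) (R := R) hSch hp (fun j c' c h => (hgK j c' c h).1) hgr hadm2 ?_ ?_
      hC hb0 hbC hbfar heL heR (T := G ∘L E - F ∘L G) ?_
    · intro ε hε
      obtain ⟨j₀, hj₀⟩ := hgslow ε hε
      exact ⟨j₀, fun j hj c T => ⟨(hj₀ j hj c T).1, (hj₀ j hj c T).2.1⟩⟩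
    · intro j c' c h
      obtain ⟨k1, k2, k3⟩ := hgs j c' c h
      refine ⟨fun x => ?_, fun x => ?_⟩
      · rw [hRκ c' j (k3.imp id And.left) x, hLκ c j k1 x]
      · rw [hRκ c' (j + 1) (k3.imp id And.right) x, hLκ c (j + 1) k2 x]
    · have h := sw_sub (sw_ME hp hG hE) (sw_EM hp hG hF)
      simp only [← sub_smul] at h
      exact h
  have hKc' : IsCompactOperator (⇑(G' ∘L F - E ∘L G')) := by
    refine sw_slow (L := R) (R := L) hSch hp (fun j c' c h => (hgK j c' c h).2) hgr' hadm1' ?_ ?_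
      hC hb0 hbC hbfar heR heL (T := G' ∘L F - E ∘L G') ?_
    · intro ε hε
      obtain ⟨j₀, hj₀⟩ := hgslow ε hε
      exact ⟨j₀, fun j hj c T => ⟨(hj₀ j hj c T).2.2.1, (hj₀ j hj c T).2.2.2⟩⟩
    · intro j c' c h
      obtain ⟨k1, k2, k3⟩ := hgs' j c' c h
      refine ⟨fun x => ?_, fun x => ?_⟩
      · rw [hRκ c j (k3.imp id And.left) x, hLκ c' j k1 x]
      · rw [hRκ c (j + 1) (k3.imp id And.right) x, hLκ c' (j + 1) k2 x]
    · have h := sw_sub (sw_ME hp hG' hF) (sw_EM hp hG' hE)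
      simp only [← sub_smul] at h
      exact h
  have e9 : ∀ a : C(M, ℂ), IsCompactOperator
      (⇑((F ∘L (repC p R τ hτR).hom a - (repC p R τ hτR).hom a ∘L F) ∘L (G - I))) := by
    intro a
    have hF1 : IsMat (F ∘L (repC p R τ hτR).hom a - (repC p R τ hτR).hom a ∘L F)
        (mX R R (mE fun i j => e i j ∘ₗ τ j a - τ i a ∘ₗ e i j)) := by
      have h := sw_sub (sw_Trep (hτL := hτR) hF a) (sw_repT (hτR := hτR) hF a)
      have hfe : (mE (fun i j => e i j ∘ₗ τ j a - τ i a ∘ₗ e i j) :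
          ∀ q' q : ℕ × ℕ, V q.2 →ₗ[ℂ] V q'.2)
          = fun q' q => mE e q' q ∘ₗ τ q.2 a - τ q'.2 a ∘ₗ mE e q' q := by
        funext q' q
        unfold mE
        by_cases hq : q'.1 = q.1
        · rw [if_pos hq, if_pos hq]
        · rw [if_neg hq, if_neg hq, LinearMap.zero_comp, LinearMap.comp_zero, sub_zero]
      rw [hfe]
      exact h
    have hGI : IsMat (G - I) (mX L R (mM fun j c' c => g j c' c - m1 j c' c)) := by
      have h := sw_sub hG hI
      have hfe : (mM (fun j c' c => g j c' c - m1 j c' c) :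
          ∀ q' q : ℕ × ℕ, V q.2 →ₗ[ℂ] V q'.2) = fun q' q => mM g q' q - mM m1 q' q := by
        funext q' q
        unfold mM
        exact sub_smul _ _ _
      rw [hfe]
      exact h
    refine sw_comm (L := L) (R := R) (K := K) hSch hp ?_ ?_ ?_ ?_ (sw_EM hp hGI hF1)
    · intro j c' c hc
      rw [(hgK j c' c (Or.inr hc)).1, hm1]
      have : 1 ≤ c := by omega
      simp [this]
    · intro j c T
      constructor
      · calc ∑ d ∈ T, ‖g j c d - m1 j c d‖ ≤ ∑ d ∈ T, (‖g j c d‖ + ‖m1 j c d‖) :=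
              Finset.sum_le_sum fun d _ => norm_sub_le _ _
          _ ≤ 9 := by
              rw [Finset.sum_add_distrib]
              linarith [(hgr j c T).1, (hm1r j c T).1]
      · calc ∑ d ∈ T, ‖g j d c - m1 j d c‖ ≤ ∑ d ∈ T, (‖g j d c‖ + ‖m1 j d c‖) :=
              Finset.sum_le_sum fun d _ => norm_sub_le _ _
          _ ≤ 9 := by
              rw [Finset.sum_add_distrib]
              linarith [(hgr j c T).2, (hm1r j c T).2]
    · intro j c' c h x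
      by_cases hg : g j c' c = 0
      · have hm : m1 j c' c ≠ 0 := fun hm => h (by rw [hg, hm, sub_zero])
        obtain ⟨rfl, h'⟩ := hm1a j c' c hm
        rw [hRL c' h']
        have hpos : 0 ≤ (L c' j).s x := apply_nonneg _ _
        linarith
      · exact hadm2 j c' c hg x
    · intro ε hε
      obtain ⟨j₀, w, k1, k2, k3, k4, k5, k6⟩ := hcomm a ε hε
      exact ⟨j₀, w, k1, fun l i j x => k2 l i j x, k3, k4, k5, k6⟩
  have hcore := sw_core (repC p L τ hτL) (repC p R τ hτR) E F G I G' I'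
    (sw_EE hp hE hee) (sw_EE hp hF hee) e1 e2 e3 e4 e5 e6 hKc hKc'
    (sw_M_rep hp hG) (sw_M_rep hp hI) e9
  have hdiag : ∀ (j c' c : ℕ), c' ≠ c → m1 j c' c = 0 := fun j c' c h => if_neg fun h' => h h'.1
  have hPL : ∀ (w : CP p L) (c i : ℕ),
      (I' ∘L I) w (c, i) = (if 1 ≤ c then (1 : ℂ) else 0) • w (c, i) := by
    intro w c i
    rw [sw_diag_apply hp hP hdiag w c i, hm1]
    simp
  have hPR : ∀ (w : CP p R) (c i : ℕ),
      (I ∘L I') w (c, i) = (if 1 ≤ c then (1 : ℂ) else 0) • w (c, i) := by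
    intro w c i
    rw [sw_diag_apply hp hP' hdiag w c i, hm1]
    simp
  exact sw_conj (glue hp L) (glue hp R)
    (glue_idem hp hE hPL he0) (glue_idem hp hF hPR hei)
    (glue_rep hp hτL) (glue_rep hp hτR) hcore

/-- the levels of the right side -/
def rlev {V : ℕ → Type} [∀ j, AddCommGroup (V j)] [∀ j, Module ℂ (V j)]
    (lev : Option ℕ → ∀ j, DNorm (V j)) : ℕ → ∀ j, DNorm (V j)
  | 0 => lev none
  | c + 1 => lev (some (c + 1))

/-- **Module SW.** -/
theorem sw (hSch : SchStmt) (hCyc : CycStmt) : SwStmt := by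
  intro p _ hp M _ V _ _ _ lev h1 h2 h3 τ hτ e b C hb0 heb hbrow hbcol hbfar hee hcomm e0 ei he0
    hei
  choose κ hκ using h3
  obtain ⟨K, g, g', hgK, hgrow, hginv, hgadm, hgadm', hgslow, hgs, hgs'⟩ := hCyc κ
  have hLκ : ∀ c j, κ j ≤ c → ∀ x : V j, (lev (some c) j).s x = (lev none j).s x :=
    fun c j h x => hκ j c h x
  have hRL : ∀ c, 1 ≤ c → ∀ j, rlev lev c j = lev (some c) j := by
    intro c hc j
    obtain ⟨c, rfl⟩ := Nat.exists_eq_add_of_le' hc
    rfl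
  have hRκ : ∀ c j, (c = 0 ∨ κ j ≤ c) → ∀ x : V j, (rlev lev c j).s x = (lev none j).s x := by
    intro c j h x
    rcases Nat.eq_zero_or_pos c with hc | hc
    · subst hc; rfl
    · rw [hRL c hc]
      exact hLκ c j (by rcases h with h | h <;> omega) x
  have hτR : ∀ c j a x, (rlev lev c j).s (τ j a x) ≤ ‖a‖ * (rlev lev c j).s x := by
    intro c
    cases c with
    | zero => exact hτ none
    | succ c => exact hτ (some (c + 1))
  have heR : ∀ c i j (x : V j), (rlev lev c i).s (e i j x) ≤ b i j * (rlev lev c j).s x := by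
    intro c
    cases c with
    | zero => exact heb none
    | succ c => exact heb (some (c + 1))
  exact sw_abs hSch p hp M V (fun c => lev (some c)) (rlev lev) (lev none) h1 h2 κ hLκ hRL hRκ τ
    (fun c => hτ (some c)) hτR e b C hb0 (fun c => heb (some c)) heR hbrow hbcol hbfar hee
    (by
      intro a ε hε
      obtain ⟨j₀, w, k1, k2, k3, k4, k5, k6⟩ := hcomm a ε hε
      refine ⟨j₀, w, k1, ?_, k3, k4, k5, k6⟩
      intro l i j x
      cases l with
      | zero => exact k2 none i j x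
      | succ l => exact k2 (some (l + 1)) i j x)
    e0 ei he0 hei K g g' hgK hgrow hginv hgadm hgadm' hgslow hgs hgs'

end Pool.Agent.H68.BDFP
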