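import Pool.Agent.H33.BDFP.Stmts

attribute [local instance] Pool.Agent.H33.BDFP.NV.instNACG Pool.Agent.H33.BDFP.NV.instModule
  Pool.Agent.H33.BDFP.NV.instNormedSpace Pool.Agent.H33.BDFP.NV.instFD
  Pool.Agent.H33.BDFP.NV.instComplete

/-!
Swindle, part a: algebra modulo compact operators.
-/

open scoped ENNReal NNReal

noncomputable section

namespace Pool.Agent.H68.BDFP

open Pool.Agent.H33.BDFP

section

variable {X Y Z W : Type} [NormedAddCommGroup X] [NormedSpace ℂ X]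
  [NormedAddCommGroup Y] [NormedSpace ℂ Y] [NormedAddCommGroup Z] [NormedSpace ℂ Z]
  [NormedAddCommGroup W] [NormedSpace ℂ W]

lemma sw_comp_left (A : Y →L[ℂ] Z) {K : X →L[ℂ] Y} (hK : IsCompactOperator (⇑K)) :
    IsCompactOperator (⇑(A ∘L K)) := hK.clm_comp A

lemma sw_comp_right {K : Y →L[ℂ] Z} (hK : IsCompactOperator (⇑K)) (A : X →L[ℂ] Y) :
    IsCompactOperator (⇑(K ∘L A)) := hK.comp_clm A

/-- The algebra of the swindle. -/
lemma sw_core {M : Set ℂ} [CompactSpace M] (ρ : Rep M X) (σ : Rep M Y)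
    (E : X →L[ℂ] X) (F : Y →L[ℂ] Y) (G I : X →L[ℂ] Y) (G' I' : Y →L[ℂ] X)
    (hE : ∀ x, E (E x) = E x) (hF : ∀ y, F (F y) = F y)
    (h1 : ∀ x, G' (G x) = x) (h2 : ∀ y, G (G' y) = y)
    (h3 : ∀ x, I (I' (I x)) = I x) (h4 : ∀ y, I' (I (I' y)) = I' y)
    (h5 : ∀ x, I (E x) = F (I x)) (h6 : ∀ y, I' (F y) = E (I' y))
    (hK : IsCompactOperator (⇑(G ∘L E - F ∘L G)))
    (hK' : IsCompactOperator (⇑(G' ∘L F - E ∘L G')))
    (h7 : ∀ a x, G (ρ.hom a x) = σ.hom a (G x)) (h8 : ∀ a x, I (ρ.hom a x) = σ.hom a (I x))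
    (h9 : ∀ a, IsCompactOperator (⇑((F ∘L σ.hom a - σ.hom a ∘L F) ∘L (G - I)))) :
    EssEquiv ρ (I' ∘L I + E ∘L (ContinuousLinearMap.id ℂ X - I' ∘L I))
      σ (I ∘L I' + F ∘L (ContinuousLinearMap.id ℂ Y - I ∘L I')) := by
  refine ⟨I + F ∘L (G - I), I' + E ∘L (G' - I'), ?_, ?_, ?_, ?_, ?_⟩
  · have h : ((I' + E ∘L (G' - I')) ∘L (I + F ∘L (G - I)))
        - (I' ∘L I + E ∘L (ContinuousLinearMap.id ℂ X - I' ∘L I))
        = E ∘L (G' ∘L F - E ∘L G') ∘L (G - I) := by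
      refine ContinuousLinearMap.ext fun x => ?_
      simp only [ContinuousLinearMap.comp_apply, ContinuousLinearMap.add_apply,
        ContinuousLinearMap.sub_apply, ContinuousLinearMap.id_apply, map_add, map_sub, hE, hF,
        h1, h2, h3, h4, h5, h6]
      abel
    rw [EqK, h]
    exact sw_comp_left _ (sw_comp_right hK' _)
  · have h : ((I + F ∘L (G - I)) ∘L (I' + E ∘L (G' - I')))
        - (I ∘L I' + F ∘L (ContinuousLinearMap.id ℂ Y - I ∘L I'))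
        = F ∘L (G ∘L E - F ∘L G) ∘L (G' - I') := by
      refine ContinuousLinearMap.ext fun x => ?_
      simp only [ContinuousLinearMap.comp_apply, ContinuousLinearMap.add_apply,
        ContinuousLinearMap.sub_apply, ContinuousLinearMap.id_apply, map_add, map_sub, hE, hF,
        h1, h2, h3, h4, h5, h6]
      abel
    rw [EqK, h]
    exact sw_comp_left _ (sw_comp_right hK _)
  · have h : ((I + F ∘L (G - I)) ∘L (I' ∘L I + E ∘L (ContinuousLinearMap.id ℂ X - I' ∘L I)))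
        - (I + F ∘L (G - I))
        = F ∘L (G ∘L E - F ∘L G) ∘L (ContinuousLinearMap.id ℂ X - I' ∘L I) := by
      refine ContinuousLinearMap.ext fun x => ?_
      simp only [ContinuousLinearMap.comp_apply, ContinuousLinearMap.add_apply,
        ContinuousLinearMap.sub_apply, ContinuousLinearMap.id_apply, map_add, map_sub, hE, hF,
        h1, h2, h3, h4, h5, h6]
      abel
    rw [EqK, h]
    exact sw_comp_left _ (sw_comp_right hK _)
  · have h : ((I' + E ∘L (G' - I')) ∘L (I ∘L I' + F ∘L (ContinuousLinearMap.id ℂ Y - I ∘L I')))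
        - (I' + E ∘L (G' - I'))
        = E ∘L (G' ∘L F - E ∘L G') ∘L (ContinuousLinearMap.id ℂ Y - I ∘L I') := by
      refine ContinuousLinearMap.ext fun x => ?_
      simp only [ContinuousLinearMap.comp_apply, ContinuousLinearMap.add_apply,
        ContinuousLinearMap.sub_apply, ContinuousLinearMap.id_apply, map_add, map_sub, hE, hF,
        h1, h2, h3, h4, h5, h6]
      abel
    rw [EqK, h]
    exact sw_comp_left _ (sw_comp_right hK' _)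
  · intro a
    have h : (I + F ∘L (G - I)) ∘L ρ.hom a - σ.hom a ∘L (I + F ∘L (G - I))
        = (F ∘L σ.hom a - σ.hom a ∘L F) ∘L (G - I) := by
      refine ContinuousLinearMap.ext fun x => ?_
      simp only [ContinuousLinearMap.comp_apply, ContinuousLinearMap.add_apply,
        ContinuousLinearMap.sub_apply, map_add, map_sub, h7, h8]
      abel
    rw [EqK, h]
    exact h9 a

/-- transport of an essential equivalence along isomorphisms -/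
lemma sw_conj {M : Set ℂ} [CompactSpace M] {ρ : Rep M X} {σ : Rep M Y} {ρ' : Rep M Z}
    {σ' : Rep M W} {e : X →L[ℂ] X} {f : Y →L[ℂ] Y} {e' : Z →L[ℂ] Z} {f' : W →L[ℂ] W}
    (Φ : X ≃L[ℂ] Z) (Ψ : Y ≃L[ℂ] W)
    (h1 : ∀ x, Φ (e x) = e' (Φ x)) (h2 : ∀ y, Ψ (f y) = f' (Ψ y))
    (h3 : ∀ a x, Φ (ρ.hom a x) = ρ'.hom a (Φ x)) (h4 : ∀ a y, Ψ (σ.hom a y) = σ'.hom a (Ψ y))
    (h : EssEquiv ρ' e' σ' f') : EssEquiv ρ e σ f := by
  obtain ⟨A, B, k1, k2, k3, k4, k5⟩ := h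
  have h1' : ∀ z, e (Φ.symm z) = Φ.symm (e' z) := fun z => by
    apply Φ.injective; rw [h1]; simp
  have h2' : ∀ z, f (Ψ.symm z) = Ψ.symm (f' z) := fun z => by
    apply Ψ.injective; rw [h2]; simp
  refine ⟨(Ψ.symm : W →L[ℂ] Y) ∘L A ∘L (Φ : X →L[ℂ] Z),
    (Φ.symm : Z →L[ℂ] X) ∘L B ∘L (Ψ : Y →L[ℂ] W), ?_, ?_, ?_, ?_, ?_⟩
  · have h : ((Φ.symm : Z →L[ℂ] X) ∘L B ∘L (Ψ : Y →L[ℂ] W)) ∘L
        ((Ψ.symm : W →L[ℂ] Y) ∘L A ∘L (Φ : X →L[ℂ] Z)) - e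
        = (Φ.symm : Z →L[ℂ] X) ∘L (B ∘L A - e') ∘L (Φ : X →L[ℂ] Z) := by
      refine ContinuousLinearMap.ext fun x => ?_
      simp [← h1]
    rw [EqK, h]
    exact sw_comp_left _ (sw_comp_right k1 _)
  · have h : ((Ψ.symm : W →L[ℂ] Y) ∘L A ∘L (Φ : X →L[ℂ] Z)) ∘L
        ((Φ.symm : Z →L[ℂ] X) ∘L B ∘L (Ψ : Y →L[ℂ] W)) - f
        = (Ψ.symm : W →L[ℂ] Y) ∘L (A ∘L B - f') ∘L (Ψ : Y →L[ℂ] W) := by
      refine ContinuousLinearMap.ext fun x => ?_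
      simp [← h2]
    rw [EqK, h]
    exact sw_comp_left _ (sw_comp_right k2 _)
  · have h : ((Ψ.symm : W →L[ℂ] Y) ∘L A ∘L (Φ : X →L[ℂ] Z)) ∘L e
        - ((Ψ.symm : W →L[ℂ] Y) ∘L A ∘L (Φ : X →L[ℂ] Z))
        = (Ψ.symm : W →L[ℂ] Y) ∘L (A ∘L e' - A) ∘L (Φ : X →L[ℂ] Z) := by
      refine ContinuousLinearMap.ext fun x => ?_
      simp [h1]
    rw [EqK, h]
    exact sw_comp_left _ (sw_comp_right k3 _)
  · have h : ((Φ.symm : Z →L[ℂ] X) ∘L B ∘L (Ψ : Y →L[ℂ] W)) ∘L f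
        - ((Φ.symm : Z →L[ℂ] X) ∘L B ∘L (Ψ : Y →L[ℂ] W))
        = (Φ.symm : Z →L[ℂ] X) ∘L (B ∘L f' - B) ∘L (Ψ : Y →L[ℂ] W) := by
      refine ContinuousLinearMap.ext fun x => ?_
      simp [h2]
    rw [EqK, h]
    exact sw_comp_left _ (sw_comp_right k4 _)
  · intro a
    have h4' : ∀ z, σ.hom a (Ψ.symm z) = Ψ.symm (σ'.hom a z) := fun z => by
      apply Ψ.injective; rw [h4]; simp
    have h : ((Ψ.symm : W →L[ℂ] Y) ∘L A ∘L (Φ : X →L[ℂ] Z)) ∘L ρ.hom a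
        - σ.hom a ∘L ((Ψ.symm : W →L[ℂ] Y) ∘L A ∘L (Φ : X →L[ℂ] Z))
        = (Ψ.symm : W →L[ℂ] Y) ∘L (A ∘L ρ'.hom a - σ'.hom a ∘L A) ∘L (Φ : X →L[ℂ] Z) := by
      refine ContinuousLinearMap.ext fun x => ?_
      simp [h3, h4']
    rw [EqK, h]
    exact sw_comp_left _ (sw_comp_right (k5 a) _)

end

end Pool.Agent.H68.BDFP
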