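import Pool.Agent.H33.BDFP.Stmts

attribute [local instance] Pool.Agent.H33.BDFP.NV.instNACG Pool.Agent.H33.BDFP.NV.instModule
  Pool.Agent.H33.BDFP.NV.instNormedSpace Pool.Agent.H33.BDFP.NV.instFD
  Pool.Agent.H33.BDFP.NV.instComplete

/-!
Swindle, part b: kernels and matrices.
-/

open scoped ENNReal NNReal

noncomputable section

namespace Pool.Agent.H68.BDFP

open Pool.Agent.H33.BDFP

/-! ### kernels -/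

lemma sw_kernel_row {β : ℕ × ℕ → ℕ × ℕ → ℝ} (G₁ G₂ : ℕ → ℕ → ℕ → ℕ → ℝ) (w₁ w₂ : ℕ → ℕ → ℝ)
    {D₁ D₂ W₁ W₂ : ℝ} (hβ0 : ∀ q' q, 0 ≤ β q' q)
    (hβ : ∀ q' q, β q' q ≤ G₁ q'.2 q.2 q'.1 q.1 * w₁ q'.2 q.2
      + G₂ q'.2 q.2 q'.1 q.1 * w₂ q'.2 q.2)
    (hw₁ : ∀ i j, 0 ≤ w₁ i j) (hw₂ : ∀ i j, 0 ≤ w₂ i j)
    (hG₁ : ∀ i j c' (S : Finset ℕ), ∑ c ∈ S, G₁ i j c' c ≤ D₁)
    (hG₂ : ∀ i j c' (S : Finset ℕ), ∑ c ∈ S, G₂ i j c' c ≤ D₂)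
    (hW₁ : ∀ i (S : Finset ℕ), ∑ j ∈ S, w₁ i j ≤ W₁)
    (hW₂ : ∀ i (S : Finset ℕ), ∑ j ∈ S, w₂ i j ≤ W₂)
    (hD₁ : 0 ≤ D₁) (hD₂ : 0 ≤ D₂) (q' : ℕ × ℕ) :
    Summable (β q') ∧ ∑' q, β q' q ≤ D₁ * W₁ + D₂ * W₂ := by
  have key : ∀ u : Finset (ℕ × ℕ), ∑ q ∈ u, β q' q ≤ D₁ * W₁ + D₂ * W₂ := by
    intro u
    have h1 : u ⊆ (u.image Prod.fst) ×ˢ (u.image Prod.snd) := fun q hq =>
      Finset.mem_product.2 ⟨Finset.mem_image_of_mem _ hq, Finset.mem_image_of_mem _ hq⟩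
    calc ∑ q ∈ u, β q' q ≤ ∑ q ∈ (u.image Prod.fst) ×ˢ (u.image Prod.snd), β q' q :=
          Finset.sum_le_sum_of_subset_of_nonneg h1 fun q _ _ => hβ0 _ _
      _ ≤ ∑ q ∈ (u.image Prod.fst) ×ˢ (u.image Prod.snd),
          (G₁ q'.2 q.2 q'.1 q.1 * w₁ q'.2 q.2 + G₂ q'.2 q.2 q'.1 q.1 * w₂ q'.2 q.2) :=
          Finset.sum_le_sum fun q _ => hβ _ _
      _ = ∑ j ∈ u.image Prod.snd, ∑ c ∈ u.image Prod.fst,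
          (G₁ q'.2 j q'.1 c * w₁ q'.2 j + G₂ q'.2 j q'.1 c * w₂ q'.2 j) :=
          Finset.sum_product_right _ _ _
      _ ≤ ∑ j ∈ u.image Prod.snd, (D₁ * w₁ q'.2 j + D₂ * w₂ q'.2 j) := by
          refine Finset.sum_le_sum fun j _ => ?_
          rw [Finset.sum_add_distrib, ← Finset.sum_mul, ← Finset.sum_mul]
          exact add_le_add (mul_le_mul_of_nonneg_right (hG₁ _ _ _ _) (hw₁ _ _))
            (mul_le_mul_of_nonneg_right (hG₂ _ _ _ _) (hw₂ _ _))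
      _ = D₁ * ∑ j ∈ u.image Prod.snd, w₁ q'.2 j + D₂ * ∑ j ∈ u.image Prod.snd, w₂ q'.2 j := by
          rw [Finset.sum_add_distrib, Finset.mul_sum, Finset.mul_sum]
      _ ≤ D₁ * W₁ + D₂ * W₂ := add_le_add (mul_le_mul_of_nonneg_left (hW₁ _ _) hD₁)
            (mul_le_mul_of_nonneg_left (hW₂ _ _) hD₂)
  exact ⟨summable_of_sum_le (fun q => hβ0 _ _) key, Real.tsum_le_of_sum_le (fun q => hβ0 _ _) key⟩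

lemma sw_kernel {β : ℕ × ℕ → ℕ × ℕ → ℝ} (G₁ G₂ : ℕ → ℕ → ℕ → ℕ → ℝ) (w₁ w₂ : ℕ → ℕ → ℝ)
    {D₁ D₂ W₁ W₂ : ℝ} (hβ0 : ∀ q' q, 0 ≤ β q' q)
    (hβ : ∀ q' q, β q' q ≤ G₁ q'.2 q.2 q'.1 q.1 * w₁ q'.2 q.2
      + G₂ q'.2 q.2 q'.1 q.1 * w₂ q'.2 q.2)
    (hw₁ : ∀ i j, 0 ≤ w₁ i j) (hw₂ : ∀ i j, 0 ≤ w₂ i j)
    (hG₁ : ∀ i j c (S : Finset ℕ), ∑ d ∈ S, G₁ i j c d ≤ D₁ ∧ ∑ d ∈ S, G₁ i j d c ≤ D₁)
    (hG₂ : ∀ i j c (S : Finset ℕ), ∑ d ∈ S, G₂ i j c d ≤ D₂ ∧ ∑ d ∈ S, G₂ i j d c ≤ D₂)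
    (hW₁ : ∀ i (S : Finset ℕ), ∑ j ∈ S, w₁ i j ≤ W₁ ∧ ∑ j ∈ S, w₁ j i ≤ W₁)
    (hW₂ : ∀ i (S : Finset ℕ), ∑ j ∈ S, w₂ i j ≤ W₂ ∧ ∑ j ∈ S, w₂ j i ≤ W₂)
    (hD₁ : 0 ≤ D₁) (hD₂ : 0 ≤ D₂) :
    (∀ q', Summable (β q') ∧ ∑' q, β q' q ≤ D₁ * W₁ + D₂ * W₂) ∧
    (∀ q, Summable (fun q' => β q' q) ∧ ∑' q', β q' q ≤ D₁ * W₁ + D₂ * W₂) := by
  refine ⟨sw_kernel_row G₁ G₂ w₁ w₂ hβ0 hβ hw₁ hw₂ (fun i j c S => (hG₁ i j c S).1)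
    (fun i j c S => (hG₂ i j c S).1) (fun i S => (hW₁ i S).1) (fun i S => (hW₂ i S).1) hD₁ hD₂,
    ?_⟩
  exact sw_kernel_row (β := fun q q' => β q' q) (fun i j c d => G₁ j i d c)
    (fun i j c d => G₂ j i d c) (fun i j => w₁ j i) (fun i j => w₂ j i) (fun q q' => hβ0 _ _)
    (fun q q' => hβ _ _) (fun i j => hw₁ _ _) (fun i j => hw₂ _ _)
    (fun i j c S => (hG₁ j i c S).2)
    (fun i j c S => (hG₂ j i c S).2) (fun i S => (hW₁ i S).2) (fun i S => (hW₂ i S).2) hD₁ hD₂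

lemma sw_kernel1 {β : ℕ × ℕ → ℕ × ℕ → ℝ} (G₁ : ℕ → ℕ → ℕ → ℕ → ℝ) (w₁ : ℕ → ℕ → ℝ)
    {D₁ W₁ : ℝ} (hβ0 : ∀ q' q, 0 ≤ β q' q)
    (hβ : ∀ q' q, β q' q ≤ G₁ q'.2 q.2 q'.1 q.1 * w₁ q'.2 q.2)
    (hw₁ : ∀ i j, 0 ≤ w₁ i j)
    (hG₁ : ∀ i j c (S : Finset ℕ), ∑ d ∈ S, G₁ i j c d ≤ D₁ ∧ ∑ d ∈ S, G₁ i j d c ≤ D₁)
    (hW₁ : ∀ i (S : Finset ℕ), ∑ j ∈ S, w₁ i j ≤ W₁ ∧ ∑ j ∈ S, w₁ j i ≤ W₁)
    (hD₁ : 0 ≤ D₁) :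
    (∀ q', Summable (β q') ∧ ∑' q, β q' q ≤ D₁ * W₁) ∧
    (∀ q, Summable (fun q' => β q' q) ∧ ∑' q', β q' q ≤ D₁ * W₁) := by
  have h := sw_kernel G₁ (fun _ _ _ _ => 0) w₁ (fun _ _ => 0) (D₂ := 0) (W₂ := 0) hβ0
    (fun q' q => by simpa using hβ q' q) hw₁ (fun _ _ => le_rfl) hG₁ (fun i j c S => by simp) hW₁
    (fun i S => by simp) hD₁ le_rfl
  simpa using h

/-! ### matrices -/

section

variable {ι κ ν : Type} [DecidableEq ι] [DecidableEq κ] {E : ι → Type} {F : κ → Type}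
  {H : ν → Type}
  [∀ i, NormedAddCommGroup (E i)] [∀ i, NormedSpace ℂ (E i)]
  [∀ i, NormedAddCommGroup (F i)] [∀ i, NormedSpace ℂ (F i)]
  [∀ i, NormedAddCommGroup (H i)] [∀ i, NormedSpace ℂ (H i)]
  {p : ℝ≥0∞} [Fact (1 ≤ p)]

omit [DecidableEq κ] in
lemma sw_hasSum (hp : p ≠ ∞) {T : lp E p →L[ℂ] lp F p} {t : ∀ (i : κ) (j : ι), E j →ₗ[ℂ] F i}
    (hT : IsMat T t) (y : lp E p) (i : κ) : HasSum (fun l => t i l (y l)) (T y i) := by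
  have h1 := lp.hasSum_single hp y
  have h2 : HasSum (fun l => T (lp.single p l (y l)) i) (T y i) :=
    (h1.mapL T).mapL (lp.evalCLM ℂ F p i)
  have h3 : (fun l => T (lp.single p l (y l)) i) = fun l => t i l (y l) :=
    funext fun l => hT l (y l) i
  rwa [h3] at h2

omit [DecidableEq κ] in
lemma sw_isMat_ext (hp : p ≠ ∞) {T T' : lp E p →L[ℂ] lp F p}
    {t : ∀ (i : κ) (j : ι), E j →ₗ[ℂ] F i} (hT : IsMat T t) (hT' : IsMat T' t) (x : lp E p) :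
    T x = T' x := by
  refine lp.ext (funext fun i => ?_)
  exact (sw_hasSum hp hT x i).unique (sw_hasSum hp hT' x i)

lemma sw_isMat_comp (hp : p ≠ ∞) {S : lp E p →L[ℂ] lp F p} {T : lp F p →L[ℂ] lp H p}
    {s : ∀ (i : κ) (j : ι), E j →ₗ[ℂ] F i} {t : ∀ (i : ν) (j : κ), F j →ₗ[ℂ] H i}
    {u : ∀ (i : ν) (j : ι), E j →ₗ[ℂ] H i} (hS : IsMat S s) (hT : IsMat T t)
    (h : ∀ i j x, HasSum (fun k => t i k (s k j x)) (u i j x)) : IsMat (T ∘L S) u := by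
  intro j x i
  have h1 := sw_hasSum hp hT (S (lp.single p j x)) i
  refine h1.unique ?_
  have h2 : (fun k => t i k ((S (lp.single p j x)) k)) = fun k => t i k (s k j x) :=
    funext fun k => by rw [hS j x k]
  rw [h2]
  exact h i j x

end

end Pool.Agent.H68.BDFP
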