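import Pool.Agent.H68.BDFP.SWb

attribute [local instance] Pool.Agent.H33.BDFP.NV.instNACG Pool.Agent.H33.BDFP.NV.instModule
  Pool.Agent.H33.BDFP.NV.instNormedSpace Pool.Agent.H33.BDFP.NV.instFD
  Pool.Agent.H33.BDFP.NV.instComplete

/-!
Swindle, part c: operators on the copies.
-/

open scoped ENNReal NNReal

noncomputable section

namespace Pool.Agent.H68.BDFP

open Pool.Agent.H33.BDFP

section

variable (V : ℕ → Type) [∀ j, AddCommGroup (V j)] [∀ j, Module ℂ (V j)]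

/-- the identity if `i = j`, zero otherwise -/
def idm (i j : ℕ) : V j →ₗ[ℂ] V i :=
  if h : i = j then (by subst h; exact LinearMap.id) else 0

lemma idm_self (j : ℕ) : idm V j j = LinearMap.id := by simp [idm]

lemma idm_ne {i j : ℕ} (h : i ≠ j) : idm V i j = 0 := by simp [idm, h]

end

section

variable {V W : Type} [AddCommGroup V] [Module ℂ V] [AddCommGroup W] [Module ℂ W]

/-- `NV.map` as an additive map -/
def nvHom (N : DNorm V) (N' : DNorm W) : (V →ₗ[ℂ] W) →+ (NV V N →ₗ[ℂ] NV W N') where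
  toFun f := NV.map N N' f
  map_zero' := rfl
  map_add' _ _ := rfl

end

section

variable {V : ℕ → Type} [∀ j, AddCommGroup (V j)] [∀ j, Module ℂ (V j)]

/-- the space of the copies -/
abbrev CP (p : ℝ≥0∞) (L : ℕ → ∀ j, DNorm (V j)) : Type :=
  lp (fun q : ℕ × ℕ => NV (V q.2) (L q.1 q.2)) p

/-- a matrix for the levels `L`, `R` -/
def mX (L R : ℕ → ∀ j, DNorm (V j)) (f : ∀ q' q : ℕ × ℕ, V q.2 →ₗ[ℂ] V q'.2) :
    ∀ q' q : ℕ × ℕ, NV (V q.2) (L q.1 q.2) →ₗ[ℂ] NV (V q'.2) (R q'.1 q'.2) :=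
  fun q' q => nvHom _ _ (f q' q)

/-- block diagonal matrices acting on the copies -/
def mM (m : ℕ → ℕ → ℕ → ℂ) : ∀ q' q : ℕ × ℕ, V q.2 →ₗ[ℂ] V q'.2 :=
  fun q' q => m q.2 q'.1 q.1 • idm V q'.2 q.2

/-- matrices acting on the blocks -/
def mE (ε : ∀ i j, V j →ₗ[ℂ] V i) : ∀ q' q : ℕ × ℕ, V q.2 →ₗ[ℂ] V q'.2 :=
  fun q' q => if q'.1 = q.1 then ε q'.2 q.2 else 0

lemma mM_ne (m : ℕ → ℕ → ℕ → ℂ) (c' c : ℕ) {i j : ℕ} (h : i ≠ j) :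
    (mM m (c', i) (c, j) : V j →ₗ[ℂ] V i) = 0 := by
  change m j c' c • idm V i j = 0
  rw [idm_ne V h, smul_zero]

lemma mM_self (m : ℕ → ℕ → ℕ → ℂ) (c' c j : ℕ) :
    (mM m (c', j) (c, j) : V j →ₗ[ℂ] V j) = m j c' c • LinearMap.id := by
  change m j c' c • idm V j j = _
  rw [idm_self]

lemma mE_ne (ε : ∀ i j, V j →ₗ[ℂ] V i) {c' c : ℕ} (i j : ℕ) (h : c' ≠ c) :
    (mE ε (c', i) (c, j) : V j →ₗ[ℂ] V i) = 0 := if_neg h

lemma mE_self (ε : ∀ i j, V j →ₗ[ℂ] V i) (c i j : ℕ) :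
    (mE ε (c, i) (c, j) : V j →ₗ[ℂ] V i) = ε i j := if_pos rfl

variable {p : ℝ≥0∞} [Fact (1 ≤ p)] {L R S : ℕ → ∀ j, DNorm (V j)}

/-- Schur test in terms of the level norms. -/
lemma sw_exists [∀ j, FiniteDimensional ℂ (V j)] (hSch : SchStmt) (hp : p ≠ ∞)
    (f : ∀ q' q : ℕ × ℕ, V q.2 →ₗ[ℂ] V q'.2) (β : ℕ × ℕ → ℕ × ℕ → ℝ) (C : ℝ) (hC : 0 ≤ C)
    (hβ0 : ∀ q' q, 0 ≤ β q' q)
    (hf : ∀ q' q (x : V q.2), (R q'.1 q'.2).s (f q' q x) ≤ β q' q * (L q.1 q.2).s x)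
    (hβ : (∀ q', Summable (β q') ∧ ∑' q, β q' q ≤ C) ∧
      (∀ q, Summable (fun q' => β q' q) ∧ ∑' q', β q' q ≤ C)) :
    ∃ T : CP p L →L[ℂ] CP p R, IsMat T (mX L R f) := by
  obtain ⟨T, hT, _⟩ := (hSch p hp (ℕ × ℕ) (ℕ × ℕ) _ _ (mX L R f)).1 β C hC hβ0
    (fun q' q x => hf q' q x) hβ.1 hβ.2
  exact ⟨T, hT⟩

/-- Compactness in terms of the level norms. -/
lemma sw_compact [∀ j, FiniteDimensional ℂ (V j)] (hSch : SchStmt) (hp : p ≠ ∞)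
    {f : ∀ q' q : ℕ × ℕ, V q.2 →ₗ[ℂ] V q'.2} {T : CP p L →L[ℂ] CP p R}
    (hT : IsMat T (mX L R f))
    (h : ∀ ε : ℝ, 0 < ε → ∃ (S : Finset (ℕ × ℕ)) (β : ℕ × ℕ → ℕ × ℕ → ℝ),
      (∀ q' q, 0 ≤ β q' q) ∧
      (∀ q', ∀ q ∉ S, ∀ (x : V q.2), (R q'.1 q'.2).s (f q' q x) ≤ β q' q * (L q.1 q.2).s x) ∧
      ((∀ q', Summable (β q') ∧ ∑' q, β q' q ≤ ε) ∧
      (∀ q, Summable (fun q' => β q' q) ∧ ∑' q', β q' q ≤ ε))) :
    IsCompactOperator (⇑T) := by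
  refine (hSch p hp (ℕ × ℕ) (ℕ × ℕ) _ _ (mX L R f)).2.2 T hT fun ε hε => ?_
  obtain ⟨S, β, h1, h2, h3⟩ := h ε hε
  exact ⟨S, β, h1, fun q' q hq x => h2 q' q hq x, h3.1, h3.2⟩

/-- matrix of a product, finitely many terms -/
lemma sw_comp (hp : p ≠ ∞) {T : CP p L →L[ℂ] CP p R} {T' : CP p R →L[ℂ] CP p S}
    {f g u : ∀ q' q : ℕ × ℕ, V q.2 →ₗ[ℂ] V q'.2}
    (hT : IsMat T (mX L R f)) (hT' : IsMat T' (mX R S g))
    (h : ∀ q'' q, ∃ U : Finset (ℕ × ℕ), (∀ k, k ∉ U → g q'' k ∘ₗ f k q = 0) ∧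
      ∑ k ∈ U, g q'' k ∘ₗ f k q = u q'' q) :
    IsMat (T' ∘L T) (mX L S u) := by
  refine sw_isMat_comp hp hT hT' ?_
  intro q'' q x
  obtain ⟨U, hU, hU2⟩ := h q'' q
  have hterm : ∀ k, mX R S g q'' k (mX L R f k q x)
      = nvHom (L q.1 q.2) (S q''.1 q''.2) (g q'' k ∘ₗ f k q) x := fun k => rfl
  have h1 : HasSum (fun k => mX R S g q'' k (mX L R f k q x))
      (∑ k ∈ U, mX R S g q'' k (mX L R f k q x)) := hasSum_sum_of_ne_finset_zero (by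
      intro k hk
      rw [hterm, hU k hk]
      rfl)
  convert h1 using 1
  rw [Finset.sum_congr rfl fun k _ => hterm k, ← LinearMap.sum_apply, ← map_sum, hU2]
  rfl

lemma sw_comp1 (hp : p ≠ ∞) {T : CP p L →L[ℂ] CP p R} {T' : CP p R →L[ℂ] CP p S}
    {f g u : ∀ q' q : ℕ × ℕ, V q.2 →ₗ[ℂ] V q'.2}
    (hT : IsMat T (mX L R f)) (hT' : IsMat T' (mX R S g))
    (h : ∀ q'' q, ∃ k₀, (∀ k, k ≠ k₀ → g q'' k ∘ₗ f k q = 0) ∧
      g q'' k₀ ∘ₗ f k₀ q = u q'' q) :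
    IsMat (T' ∘L T) (mX L S u) := by
  refine sw_comp hp hT hT' fun q'' q => ?_
  obtain ⟨k₀, h1, h2⟩ := h q'' q
  refine ⟨{k₀}, fun k hk => h1 k (by simpa using hk), ?_⟩
  rw [Finset.sum_singleton, h2]

lemma sw_EM (hp : p ≠ ∞) {m : ℕ → ℕ → ℕ → ℂ} {ε : ∀ i j, V j →ₗ[ℂ] V i}
    {T : CP p L →L[ℂ] CP p R} {Eo : CP p R →L[ℂ] CP p R}
    (hT : IsMat T (mX L R (mM m))) (hE : IsMat Eo (mX R R (mE ε))) :
    IsMat (Eo ∘L T) (mX L R (fun q' q => m q.2 q'.1 q.1 • ε q'.2 q.2)) := by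
  refine sw_comp1 hp hT hE ?_
  rintro ⟨c', i⟩ ⟨c, j⟩
  refine ⟨(c', j), ?_, ?_⟩
  · rintro ⟨d, l⟩ hk
    by_cases h1 : c' = d
    · have h2 : l ≠ j := fun h => hk (by rw [h1, h])
      change (mE ε (c', i) (d, l) : V l →ₗ[ℂ] V i) ∘ₗ (mM m (d, l) (c, j) : V j →ₗ[ℂ] V l) = 0
      rw [mM_ne m d c h2, LinearMap.comp_zero]
    · change (mE ε (c', i) (d, l) : V l →ₗ[ℂ] V i) ∘ₗ (mM m (d, l) (c, j) : V j →ₗ[ℂ] V l) = 0
      rw [mE_ne ε i l h1, LinearMap.zero_comp]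
  · change (mE ε (c', i) (c', j) : V j →ₗ[ℂ] V i) ∘ₗ (mM m (c', j) (c, j) : V j →ₗ[ℂ] V j)
      = m j c' c • ε i j
    rw [mE_self, mM_self, LinearMap.comp_smul, LinearMap.comp_id]

lemma sw_ME (hp : p ≠ ∞) {m : ℕ → ℕ → ℕ → ℂ} {ε : ∀ i j, V j →ₗ[ℂ] V i}
    {T : CP p L →L[ℂ] CP p R} {Eo : CP p L →L[ℂ] CP p L}
    (hT : IsMat T (mX L R (mM m))) (hE : IsMat Eo (mX L L (mE ε))) :
    IsMat (T ∘L Eo) (mX L R (fun q' q => m q'.2 q'.1 q.1 • ε q'.2 q.2)) := by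
  refine sw_comp1 hp hE hT ?_
  rintro ⟨c', i⟩ ⟨c, j⟩
  refine ⟨(c, i), ?_, ?_⟩
  · rintro ⟨d, l⟩ hk
    by_cases h1 : d = c
    · have h2 : i ≠ l := fun h => hk (by rw [h1, h])
      change (mM m (c', i) (d, l) : V l →ₗ[ℂ] V i) ∘ₗ (mE ε (d, l) (c, j) : V j →ₗ[ℂ] V l) = 0
      rw [mM_ne m c' d h2, LinearMap.zero_comp]
    · change (mM m (c', i) (d, l) : V l →ₗ[ℂ] V i) ∘ₗ (mE ε (d, l) (c, j) : V j →ₗ[ℂ] V l) = 0
      rw [mE_ne ε l j h1, LinearMap.comp_zero]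
  · change (mM m (c', i) (c, i) : V i →ₗ[ℂ] V i) ∘ₗ (mE ε (c, i) (c, j) : V j →ₗ[ℂ] V i)
      = m i c' c • ε i j
    rw [mE_self, mM_self, LinearMap.smul_comp, LinearMap.id_comp]

lemma sw_MM (hp : p ≠ ∞) {m m' m'' : ℕ → ℕ → ℕ → ℂ}
    {T : CP p L →L[ℂ] CP p R} {T' : CP p R →L[ℂ] CP p S}
    (hT : IsMat T (mX L R (mM m))) (hT' : IsMat T' (mX R S (mM m')))
    (hm : ∀ j c' c, ∃ U : Finset ℕ, (∀ d, d ∉ U → m' j c' d * m j d c = 0) ∧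
      ∑ d ∈ U, m' j c' d * m j d c = m'' j c' c) :
    IsMat (T' ∘L T) (mX L S (mM m'')) := by
  refine sw_comp hp hT hT' ?_
  rintro ⟨c', i⟩ ⟨c, j⟩
  obtain ⟨U, hU, hU2⟩ := hm j c' c
  have hne : ∀ d l, l ≠ j → (mM m' (c', i) (d, l) : V l →ₗ[ℂ] V i)
      ∘ₗ (mM m (d, l) (c, j) : V j →ₗ[ℂ] V l) = 0 := by
    intro d l h
    rw [mM_ne m d c h, LinearMap.comp_zero]
  by_cases hij : i = j
  · subst hij
    have hterm : ∀ d, (mM m' (c', i) (d, i) : V i →ₗ[ℂ] V i)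
        ∘ₗ (mM m (d, i) (c, i) : V i →ₗ[ℂ] V i) = (m' i c' d * m i d c) • LinearMap.id := by
      intro d
      rw [mM_self, mM_self, LinearMap.comp_smul, LinearMap.comp_id, smul_smul, mul_comm]
    refine ⟨U ×ˢ {i}, ?_, ?_⟩
    · rintro ⟨d, l⟩ hk
      by_cases h1 : l = i
      · subst h1
        change (mM m' (c', l) (d, l) : V l →ₗ[ℂ] V l)
          ∘ₗ (mM m (d, l) (c, l) : V l →ₗ[ℂ] V l) = 0
        rw [hterm, hU d (fun hd => hk (by simp [hd])), zero_smul]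
      · exact hne d l h1
    · rw [Finset.sum_product]
      simp only [Finset.sum_singleton]
      change ∑ d ∈ U, (mM m' (c', i) (d, i) : V i →ₗ[ℂ] V i)
        ∘ₗ (mM m (d, i) (c, i) : V i →ₗ[ℂ] V i) = (mM m'' (c', i) (c, i) : V i →ₗ[ℂ] V i)
      rw [Finset.sum_congr rfl fun d _ => hterm d, ← Finset.sum_smul, hU2, mM_self]
  · refine ⟨∅, ?_, ?_⟩
    · rintro ⟨d, l⟩ _
      by_cases h1 : l = j
      · subst h1
        change (mM m' (c', i) (d, l) : V l →ₗ[ℂ] V i)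
          ∘ₗ (mM m (d, l) (c, l) : V l →ₗ[ℂ] V l) = 0
        rw [mM_ne m' c' d hij, LinearMap.zero_comp]
      · exact hne d l h1
    · rw [Finset.sum_empty]
      exact (mM_ne m'' c' c hij).symm

lemma sw_isMat_id : IsMat (ContinuousLinearMap.id ℂ (CP p L))
    (mX L L (mM fun _ c' c => if c' = c then 1 else 0)) := by
  rintro ⟨c, j⟩ x ⟨c', i⟩
  rw [ContinuousLinearMap.id_apply]
  by_cases h : i = j
  · subst h
    by_cases h' : c' = c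
    · subst h'
      rw [lp.single_apply_self]
      change x = nvHom (L c' i) (L c' i) (mM (fun _ c' c => if c' = c then 1 else 0)
        (c', i) (c', i) : V i →ₗ[ℂ] V i) x
      rw [mM_self, if_pos rfl, one_smul]
      rfl
    · rw [lp.single_apply_ne _ _ _ (fun h => h' (Prod.mk.inj h).1)]
      change (0 : NV (V i) (L c' i)) = nvHom (L c i) (L c' i)
        (mM (fun _ c' c => if c' = c then 1 else 0) (c', i) (c, i) : V i →ₗ[ℂ] V i) x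
      rw [mM_self, if_neg h', zero_smul]
      rfl
  · rw [lp.single_apply_ne _ _ _ (fun h' => h (Prod.mk.inj h').2)]
    change (0 : NV (V i) (L c' i)) = nvHom (L c j) (L c' i)
        (mM (fun _ c' c => if c' = c then 1 else 0) (c', i) (c, j) : V j →ₗ[ℂ] V i) x
    rw [mM_ne _ _ _ h]
    rfl

lemma sw_existsM [∀ j, FiniteDimensional ℂ (V j)] (hSch : SchStmt) (hp : p ≠ ∞)
    (m : ℕ → ℕ → ℕ → ℂ) {D κ₀ : ℝ} (hD : 0 ≤ D) (hκ : 0 ≤ κ₀)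
    (hm : ∀ j c (T : Finset ℕ), ∑ d ∈ T, ‖m j c d‖ ≤ D ∧ ∑ d ∈ T, ‖m j d c‖ ≤ D)
    (hadm : ∀ j c' c, m j c' c ≠ 0 → ∀ x : V j, (R c' j).s x ≤ κ₀ * (L c j).s x) :
    ∃ T : CP p L →L[ℂ] CP p R, IsMat T (mX L R (mM m)) := by
  have hβ0 : ∀ q' q : ℕ × ℕ,
      0 ≤ (if q'.2 = q.2 then ‖m q.2 q'.1 q.1‖ * κ₀ else 0) := by
    intro q' q
    split_ifs
    · positivity
    · exact le_rfl
  have hk := sw_kernel1 (β := fun q' q => if q'.2 = q.2 then ‖m q.2 q'.1 q.1‖ * κ₀ else 0)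
    (fun i j c' c => ‖m j c' c‖ * κ₀)
    (fun i j => if i = j then 1 else 0) (D₁ := D * κ₀) (W₁ := 1) hβ0
    (by
      intro q' q
      split_ifs <;> simp)
    (by
      intro i j
      split_ifs <;> norm_num)
    (by
      intro i j c T
      rw [← Finset.sum_mul, ← Finset.sum_mul]
      exact ⟨mul_le_mul_of_nonneg_right (hm j c T).1 hκ,
        mul_le_mul_of_nonneg_right (hm j c T).2 hκ⟩)
    (by
      intro i T
      rw [Finset.sum_ite_eq T i, Finset.sum_ite_eq' T i]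
      split_ifs <;> norm_num)
    (by positivity)
  refine sw_exists hSch hp _ _ (D * κ₀ * 1) (by positivity) hβ0 ?_ hk
  rintro ⟨c', i⟩ ⟨c, j⟩ x
  change (R c' i).s ((mM m (c', i) (c, j) : V j →ₗ[ℂ] V i) x) ≤
    (if i = j then ‖m j c' c‖ * κ₀ else 0) * (L c j).s x
  by_cases h : i = j
  · subst h
    rw [if_pos rfl, mM_self, LinearMap.smul_apply, LinearMap.id_apply, map_smul_eq_mul, mul_assoc]
    by_cases h0 : m i c' c = 0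
    · rw [h0]; simp
    · exact mul_le_mul_of_nonneg_left (hadm i c' c h0 x) (norm_nonneg _)
  · rw [if_neg h, mM_ne _ _ _ h]
    simp

lemma sw_existsE [∀ j, FiniteDimensional ℂ (V j)] (hSch : SchStmt) (hp : p ≠ ∞)
    (ε : ∀ i j, V j →ₗ[ℂ] V i) {b : ℕ → ℕ → ℝ} {C : ℝ} (hC : 0 ≤ C) (hb : ∀ i j, 0 ≤ b i j)
    (hbC : ∀ i (T : Finset ℕ), ∑ j ∈ T, b i j ≤ C ∧ ∑ j ∈ T, b j i ≤ C)
    (hε : ∀ c i j (x : V j), (L c i).s (ε i j x) ≤ b i j * (L c j).s x) :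
    ∃ T : CP p L →L[ℂ] CP p L, IsMat T (mX L L (mE ε)) := by
  have hβ0 : ∀ q' q : ℕ × ℕ, 0 ≤ (if q'.1 = q.1 then b q'.2 q.2 else 0) := by
    intro q' q
    split_ifs
    · exact hb _ _
    · exact le_rfl
  have hk := sw_kernel1 (β := fun q' q => if q'.1 = q.1 then b q'.2 q.2 else 0)
    (fun i j c' c => if c' = c then 1 else 0) b (D₁ := 1)
    (W₁ := C) hβ0
    (by
      intro q' q
      split_ifs <;> simp)
    hb
    (by
      intro i j c T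
      rw [Finset.sum_ite_eq T c, Finset.sum_ite_eq' T c]
      split_ifs <;> norm_num)
    hbC zero_le_one
  refine sw_exists hSch hp _ _ (1 * C) (by positivity) hβ0 ?_ hk
  rintro ⟨c', i⟩ ⟨c, j⟩ x
  change (L c' i).s ((mE ε (c', i) (c, j) : V j →ₗ[ℂ] V i) x) ≤
    (if c' = c then b i j else 0) * (L c j).s x
  by_cases h : c' = c
  · subst h
    rw [if_pos rfl, mE_self]
    exact hε _ _ _ _
  · rw [if_neg h, mE_ne _ _ _ h]
    simp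

end

end Pool.Agent.H68.BDFP
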