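import Pool.Agent.H68.BDFP.SWc

attribute [local instance] Pool.Agent.H33.BDFP.NV.instNACG Pool.Agent.H33.BDFP.NV.instModule
  Pool.Agent.H33.BDFP.NV.instNormedSpace Pool.Agent.H33.BDFP.NV.instFD
  Pool.Agent.H33.BDFP.NV.instComplete

/-!
Swindle, part d: the two compactness statements.
-/

open scoped ENNReal NNReal

noncomputable section

namespace Pool.Agent.H68.BDFP

open Pool.Agent.H33.BDFP

section

variable {V : ℕ → Type} [∀ j, AddCommGroup (V j)] [∀ j, Module ℂ (V j)]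
  [∀ j, FiniteDimensional ℂ (V j)]
  {p : ℝ≥0∞} [Fact (1 ≤ p)] {L R : ℕ → ∀ j, DNorm (V j)}

lemma sw_far {b : ℕ → ℕ → ℝ} (hbfar : Summable (fun x : ℕ × ℕ => if nearDiag x then 0
    else b x.1 x.2)) {ε : ℝ} (hε : 0 < ε) :
    ∃ n₀ : ℕ, ∀ i (T : Finset ℕ),
      ∑ j ∈ T, (if nearDiag (i, j) ∨ (i < n₀ ∧ j < n₀) then 0 else b i j) ≤ ε ∧
      ∑ j ∈ T, (if nearDiag (j, i) ∨ (j < n₀ ∧ i < n₀) then 0 else b j i) ≤ ε := by
  obtain ⟨F, hF⟩ := summable_iff_vanishing_norm.1 hbfar ε hε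
  set n₀ := F.sup (fun x => max x.1 x.2 + 1) with hn₀
  have hmem : ∀ x ∈ F, x.1 < n₀ ∧ x.2 < n₀ := by
    intro x hx
    have h := Finset.le_sup (f := fun x : ℕ × ℕ => max x.1 x.2 + 1) hx
    rw [← hn₀] at h
    have h1 := le_max_left x.1 x.2
    have h2 := le_max_right x.1 x.2
    constructor <;> omega
  refine ⟨n₀, fun i T => ⟨?_, ?_⟩⟩
  · set T' := T.filter (fun j => ¬ (i < n₀ ∧ j < n₀)) with hT'
    have h1 : ∑ j ∈ T, (if nearDiag (i, j) ∨ (i < n₀ ∧ j < n₀) then 0 else b i j)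
        = ∑ x ∈ T'.image (fun j => (i, j)), (if nearDiag x then 0 else b x.1 x.2) := by
      rw [Finset.sum_image (fun a _ c _ h => (Prod.mk.inj h).2), hT', Finset.sum_filter]
      refine Finset.sum_congr rfl fun j _ => ?_
      by_cases h1 : nearDiag (i, j) <;> by_cases h2 : (i < n₀ ∧ j < n₀) <;> simp [h1, h2]
    rw [h1]
    refine ((le_abs_self _).trans (hF _ ?_).le)
    rw [Finset.disjoint_left]
    intro x hx hxF
    obtain ⟨j, hj, rfl⟩ := Finset.mem_image.1 hx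
    exact (Finset.mem_filter.1 hj).2 (hmem _ hxF)
  · set T' := T.filter (fun j => ¬ (j < n₀ ∧ i < n₀)) with hT'
    have h1 : ∑ j ∈ T, (if nearDiag (j, i) ∨ (j < n₀ ∧ i < n₀) then 0 else b j i)
        = ∑ x ∈ T'.image (fun j => (j, i)), (if nearDiag x then 0 else b x.1 x.2) := by
      rw [Finset.sum_image (fun a _ c _ h => (Prod.mk.inj h).1), hT', Finset.sum_filter]
      refine Finset.sum_congr rfl fun j _ => ?_
      by_cases h1 : nearDiag (j, i) <;> by_cases h2 : (j < n₀ ∧ i < n₀) <;> simp [h1, h2]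
    rw [h1]
    refine ((le_abs_self _).trans (hF _ ?_).le)
    rw [Finset.disjoint_left]
    intro x hx hxF
    obtain ⟨j, hj, rfl⟩ := Finset.mem_image.1 hx
    exact (Finset.mem_filter.1 hj).2 (hmem _ hxF)

/-- slowly varying matrices commute with `e` modulo compact operators -/
lemma sw_slow (hSch : SchStmt) (hp : p ≠ ∞) {g : ℕ → ℕ → ℕ → ℂ} {K : ℕ → ℕ}
    (hK : ∀ j c' c, K j < c' ∨ K j < c → g j c' c = if c' = c then 1 else 0)
    (hrow : ∀ j c (T : Finset ℕ), ∑ d ∈ T, ‖g j c d‖ ≤ 8 ∧ ∑ d ∈ T, ‖g j d c‖ ≤ 8)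
    (hadm : ∀ j c' c, g j c' c ≠ 0 → ∀ x : V j, (R c' j).s x ≤ 2 * (L c j).s x)
    (hslow : ∀ ε : ℝ, 0 < ε → ∃ j₀ : ℕ, ∀ j, j₀ ≤ j → ∀ c (T : Finset ℕ),
      ∑ d ∈ T, ‖g (j + 1) c d - g j c d‖ ≤ ε ∧ ∑ d ∈ T, ‖g (j + 1) d c - g j d c‖ ≤ ε)
    (hsadm : ∀ j c' c, g (j + 1) c' c ≠ g j c' c → (∀ x : V j, (R c' j).s x ≤ (L c j).s x) ∧
      (∀ x : V (j + 1), (R c' (j + 1)).s x ≤ (L c (j + 1)).s x))
    {e : ∀ i j, V j →ₗ[ℂ] V i} {b : ℕ → ℕ → ℝ} {C : ℝ} (hC : 0 ≤ C) (hb : ∀ i j, 0 ≤ b i j)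
    (hbC : ∀ i (T : Finset ℕ), ∑ j ∈ T, b i j ≤ C ∧ ∑ j ∈ T, b j i ≤ C)
    (hbfar : Summable (fun x : ℕ × ℕ => if nearDiag x then 0 else b x.1 x.2))
    (heL : ∀ c i j (x : V j), (L c i).s (e i j x) ≤ b i j * (L c j).s x)
    (heR : ∀ c i j (x : V j), (R c i).s (e i j x) ≤ b i j * (R c j).s x)
    {T : CP p L →L[ℂ] CP p R}
    (hT : IsMat T (mX L R (fun q' q => (g q'.2 q'.1 q.1 - g q.2 q'.1 q.1) • e q'.2 q.2))) :
    IsCompactOperator (⇑T) := by
  refine sw_compact hSch hp hT fun ε hε => ?_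
  have hε₁ : 0 < ε / (2 * (C + 1)) := by positivity
  have hε₂ : 0 < ε / 64 := by positivity
  obtain ⟨j₀, hj₀⟩ := hslow _ hε₁
  obtain ⟨n₀, hn₀⟩ := sw_far hbfar hε₂
  set n₁ := max n₀ (j₀ + 1) with hn₁
  set Ks := ∑ i ∈ Finset.range n₁, K i with hKs
  have hKle : ∀ i, i < n₁ → K i ≤ Ks := fun i hi =>
    Finset.single_le_sum (f := K) (fun _ _ => Nat.zero_le _) (Finset.mem_range.2 hi)
  have hn₀₁ : n₀ ≤ n₁ := le_max_left _ _
  have hj₀₁ : j₀ + 1 ≤ n₁ := le_max_right _ _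
  -- outside of the finite set
  have hout : ∀ c' c i j, (c, j) ∉ Finset.range (Ks + 1) ×ˢ Finset.range n₁ → i < n₁ → j < n₁ →
      g i c' c = g j c' c := by
    intro c' c i j hq hi hj
    have hc : Ks < c := by
      by_contra h
      exact hq (Finset.mem_product.2 ⟨Finset.mem_range.2 (by simp only; omega),
        Finset.mem_range.2 hj⟩)
    rw [hK i c' c (Or.inr ((hKle i hi).trans_lt hc)), hK j c' c (Or.inr ((hKle j hj).trans_lt hc))]
  refine ⟨Finset.range (Ks + 1) ×ˢ Finset.range n₁, fun q' q =>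
    if q ∈ Finset.range (Ks + 1) ×ˢ Finset.range n₁ ∨ g q'.2 q'.1 q.1 = g q.2 q'.1 q.1 then 0
    else if nearDiag (q'.2, q.2) then ‖g q'.2 q'.1 q.1 - g q.2 q'.1 q.1‖ * b q'.2 q.2
    else (2 * (‖g q'.2 q'.1 q.1‖ + ‖g q.2 q'.1 q.1‖)) * b q'.2 q.2, ?_, ?_, ?_⟩
  · intro q' q
    dsimp only
    have := hb q'.2 q.2
    split_ifs
    · exact le_rfl
    · positivity
    · positivity
  · rintro ⟨c', i⟩ ⟨c, j⟩ hq x
    dsimp only at hq x ⊢
    rw [LinearMap.smul_apply, map_smul_eq_mul]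
    by_cases h1 : g i c' c = g j c' c
    · rw [if_pos (Or.inr h1), h1, sub_self, norm_zero, zero_mul, zero_mul]
    · rw [if_neg (not_or.2 ⟨hq, h1⟩)]
      have hij : i ≠ j := fun h => h1 (by rw [h])
      have hbx := hb i j
      by_cases h2 : nearDiag (i, j)
      · rw [if_pos h2, mul_assoc]
        refine mul_le_mul_of_nonneg_left ((heR c' i j x).trans
          (mul_le_mul_of_nonneg_left ?_ hbx)) (norm_nonneg _)
        have h3 : i = j + 1 ∨ j = i + 1 := by
          have h4 : i ≤ j + 1 ∧ j ≤ i + 1 := h2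
          omega
        rcases h3 with h3 | h3
        · subst h3
          exact (hsadm j c' c h1).1 x
        · subst h3
          exact (hsadm i c' c (Ne.symm h1)).2 x
      · rw [if_neg h2]
        have h3 : (R c' i).s (e i j x) ≤ 2 * (b i j * (L c j).s x) := by
          by_cases h4 : g i c' c = 0
          · have h5 : g j c' c ≠ 0 := fun h => h1 (by rw [h4, h])
            calc (R c' i).s (e i j x) ≤ b i j * (R c' j).s x := heR _ _ _ _
              _ ≤ b i j * (2 * (L c j).s x) :=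
                mul_le_mul_of_nonneg_left (hadm j c' c h5 x) hbx
              _ = 2 * (b i j * (L c j).s x) := by ring
          · exact (hadm i c' c h4 _).trans (mul_le_mul_of_nonneg_left (heL _ _ _ _) (by norm_num))
        calc ‖g i c' c - g j c' c‖ * (R c' i).s (e i j x)
            ≤ (‖g i c' c‖ + ‖g j c' c‖) * (2 * (b i j * (L c j).s x)) :=
              mul_le_mul (norm_sub_le _ _) h3 (apply_nonneg _ _) (by positivity)
          _ = 2 * (‖g i c' c‖ + ‖g j c' c‖) * b i j * (L c j).s x := by ring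
  · have hk := sw_kernel (β := fun q' q : ℕ × ℕ =>
        if q ∈ Finset.range (Ks + 1) ×ˢ Finset.range n₁ ∨ g q'.2 q'.1 q.1 = g q.2 q'.1 q.1 then 0
        else if nearDiag (q'.2, q.2) then ‖g q'.2 q'.1 q.1 - g q.2 q'.1 q.1‖ * b q'.2 q.2
        else (2 * (‖g q'.2 q'.1 q.1‖ + ‖g q.2 q'.1 q.1‖)) * b q'.2 q.2)
      (fun i j c' c => if j₀ ≤ i ∧ j₀ ≤ j ∧ nearDiag (i, j) then ‖g i c' c - g j c' c‖ else 0)
      (fun i j c' c => 2 * (‖g i c' c‖ + ‖g j c' c‖)) b
      (fun i j => if nearDiag (i, j) ∨ (i < n₀ ∧ j < n₀) then 0 else b i j)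
      (D₁ := ε / (2 * (C + 1))) (D₂ := 32) (W₁ := C) (W₂ := ε / 64) ?_ ?_ hb ?_ ?_ ?_ hbC ?_
      hε₁.le (by norm_num)
    · have h1 : ε / (2 * (C + 1)) * C + 32 * (ε / 64) ≤ ε := by
        have h2 : ε / (2 * (C + 1)) * C ≤ ε / 2 := by
          rw [div_mul_eq_mul_div, div_le_div_iff₀ (by positivity) (by norm_num)]
          nlinarith
        linarith
      exact ⟨fun q' => ⟨(hk.1 q').1, (hk.1 q').2.trans h1⟩,
        fun q => ⟨(hk.2 q).1, (hk.2 q).2.trans h1⟩⟩
    · intro q' q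
      have := hb q'.2 q.2
      split_ifs
      · exact le_rfl
      · positivity
      · positivity
    · rintro ⟨c', i⟩ ⟨c, j⟩
      dsimp only
      have hbx := hb i j
      have hG1 : 0 ≤ (if j₀ ≤ i ∧ j₀ ≤ j ∧ nearDiag (i, j) then ‖g i c' c - g j c' c‖ else 0) := by
        split_ifs
        · positivity
        · exact le_rfl
      have hW2 : 0 ≤ (if nearDiag (i, j) ∨ (i < n₀ ∧ j < n₀) then 0 else b i j) := by
        split_ifs
        · exact le_rfl
        · exact hbx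
      by_cases h1 : (c, j) ∈ Finset.range (Ks + 1) ×ˢ Finset.range n₁ ∨ g i c' c = g j c' c
      · rw [if_pos h1]
        positivity
      · rw [if_neg h1]
        obtain ⟨hq, hne⟩ := not_or.1 h1
        by_cases h2 : nearDiag (i, j)
        · rw [if_pos h2]
          have h4 : i ≤ j + 1 ∧ j ≤ i + 1 := h2
          have h5 : j₀ ≤ i ∧ j₀ ≤ j := by
            by_contra h6
            exact hne (hout c' c i j hq (by omega) (by omega))
          rw [if_pos ⟨h5.1, h5.2, h2⟩, if_pos (Or.inl h2), mul_zero, add_zero]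
        · rw [if_neg h2]
          have h5 : ¬ (i < n₀ ∧ j < n₀) := fun h6 =>
            hne (hout c' c i j hq (by omega) (by omega))
          rw [if_neg (not_or.2 ⟨h2, h5⟩)]
          have := mul_nonneg hG1 hbx
          linarith
    · intro i j
      have hbx := hb i j
      split_ifs
      · exact le_rfl
      · exact hbx
    · intro i j c T
      by_cases h : j₀ ≤ i ∧ j₀ ≤ j ∧ nearDiag (i, j)
      · simp only [if_pos h]
        obtain ⟨h1, h2, h3⟩ := h
        have h4 : i ≤ j + 1 ∧ j ≤ i + 1 := h3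
        have h5 : i = j ∨ i = j + 1 ∨ j = i + 1 := by omega
        rcases h5 with h5 | h5 | h5
        · subst h5
          simp only [sub_self, norm_zero, Finset.sum_const_zero]
          exact ⟨hε₁.le, hε₁.le⟩
        · subst h5
          exact hj₀ j h2 c T
        · subst h5
          have h6 := hj₀ i h1 c T
          constructor
          · refine (Finset.sum_congr rfl fun d _ => ?_).trans_le h6.1
            exact norm_sub_rev _ _
          · refine (Finset.sum_congr rfl fun d _ => ?_).trans_le h6.2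
            exact norm_sub_rev _ _
      · simp only [if_neg h, Finset.sum_const_zero]
        exact ⟨hε₁.le, hε₁.le⟩
    · intro i j c T
      rw [← Finset.mul_sum, ← Finset.mul_sum, Finset.sum_add_distrib, Finset.sum_add_distrib]
      have h1 := hrow i c T
      have h2 := hrow j c T
      constructor <;> linarith [h1.1, h1.2, h2.1, h2.2]
    · exact hn₀

/-- small commutators -/
lemma sw_comm (hSch : SchStmt) (hp : p ≠ ∞) {h : ℕ → ℕ → ℕ → ℂ} {K : ℕ → ℕ}
    (hK : ∀ j c' c, K j < c → h j c' c = 0)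
    (hrow : ∀ j c (T : Finset ℕ), ∑ d ∈ T, ‖h j c d‖ ≤ 9 ∧ ∑ d ∈ T, ‖h j d c‖ ≤ 9)
    (hadm : ∀ j c' c, h j c' c ≠ 0 → ∀ x : V j, (R c' j).s x ≤ 2 * (L c j).s x)
    {δ : ∀ i j, V j →ₗ[ℂ] V i}
    (hδ : ∀ ε : ℝ, 0 < ε → ∃ (j₀ : ℕ) (c : ℕ → ℕ → ℝ), (∀ i j, 0 ≤ c i j) ∧
      (∀ l i j (x : V j), (R l i).s (δ i j x) ≤ c i j * (R l j).s x) ∧
      (∀ i, Summable (c i)) ∧ (∀ j, Summable (fun i => c i j)) ∧
      (∀ i, j₀ ≤ i → ∑' j, c i j ≤ ε) ∧ (∀ j, j₀ ≤ j → ∑' i, c i j ≤ ε))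
    {T : CP p L →L[ℂ] CP p R}
    (hT : IsMat T (mX L R (fun q' q => h q.2 q'.1 q.1 • δ q'.2 q.2))) :
    IsCompactOperator (⇑T) := by
  refine sw_compact hSch hp hT fun ε hε => ?_
  have hε₁ : 0 < ε / 18 := by positivity
  obtain ⟨j₀, w, hw0, hw1, hw2, hw3, hw4, hw5⟩ := hδ _ hε₁
  have htail : ∀ i, ∃ n : ℕ, ∀ T : Finset ℕ, (∀ j ∈ T, n ≤ j) → ∑ j ∈ T, w i j ≤ ε / 18 := by
    intro i
    obtain ⟨F, hF⟩ := summable_iff_vanishing_norm.1 (hw2 i) _ hε₁
    refine ⟨F.sup (fun x => x + 1), fun T hT => ((le_abs_self _).trans (hF T ?_).le)⟩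
    rw [Finset.disjoint_left]
    intro j hj hjF
    have h1 := hT j hj
    have h2 := Finset.le_sup (f := fun x : ℕ => x + 1) hjF
    omega
  choose n hn using htail
  set n₁ := j₀ + ∑ i ∈ Finset.range j₀, n i with hn₁
  have hn₁j : j₀ ≤ n₁ := Nat.le_add_right _ _
  have hn₁n : ∀ i, i < j₀ → n i ≤ n₁ := fun i hi =>
    (Finset.single_le_sum (f := n) (fun _ _ => Nat.zero_le _) (Finset.mem_range.2 hi)).trans
      (Nat.le_add_left _ _)
  set Ks := ∑ i ∈ Finset.range n₁, K i with hKs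
  have hKle : ∀ i, i < n₁ → K i ≤ Ks := fun i hi =>
    Finset.single_le_sum (f := K) (fun _ _ => Nat.zero_le _) (Finset.mem_range.2 hi)
  have hout : ∀ c' c j, (c, j) ∉ Finset.range (Ks + 1) ×ˢ Finset.range n₁ → h j c' c ≠ 0 →
      n₁ ≤ j := by
    intro c' c j hq hh
    by_contra hj
    have hc : Ks < c := by
      by_contra h
      exact hq (Finset.mem_product.2 ⟨Finset.mem_range.2 (by simp only; omega),
        Finset.mem_range.2 (by simp only; omega)⟩)
    exact hh (hK j c' c ((hKle j (by omega)).trans_lt hc))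
  refine ⟨Finset.range (Ks + 1) ×ˢ Finset.range n₁, fun q' q =>
    if q ∈ Finset.range (Ks + 1) ×ˢ Finset.range n₁ ∨ h q.2 q'.1 q.1 = 0 then 0
    else (‖h q.2 q'.1 q.1‖ * 2) * w q'.2 q.2, ?_, ?_, ?_⟩
  · intro q' q
    dsimp only
    have := hw0 q'.2 q.2
    split_ifs
    · exact le_rfl
    · positivity
  · rintro ⟨c', i⟩ ⟨c, j⟩ hq x
    dsimp only at hq x ⊢
    rw [LinearMap.smul_apply, map_smul_eq_mul]
    by_cases h1 : h j c' c = 0
    · rw [if_pos (Or.inr h1), h1, norm_zero, zero_mul, zero_mul]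
    · rw [if_neg (not_or.2 ⟨hq, h1⟩)]
      calc ‖h j c' c‖ * (R c' i).s (δ i j x) ≤ ‖h j c' c‖ * (w i j * (2 * (L c j).s x)) := by
            refine mul_le_mul_of_nonneg_left ((hw1 c' i j x).trans ?_) (norm_nonneg _)
            exact mul_le_mul_of_nonneg_left (hadm j c' c h1 x) (hw0 i j)
        _ = (‖h j c' c‖ * 2) * w i j * (L c j).s x := by ring
  · have hk := sw_kernel1 (β := fun q' q : ℕ × ℕ =>
        if q ∈ Finset.range (Ks + 1) ×ˢ Finset.range n₁ ∨ h q.2 q'.1 q.1 = 0 then 0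
        else (‖h q.2 q'.1 q.1‖ * 2) * w q'.2 q.2)
      (fun i j c' c => ‖h j c' c‖ * 2)
      (fun i j => if j < n₁ then 0 else w i j)
      (D₁ := 18) (W₁ := ε / 18) ?_ ?_ ?_ ?_ ?_ (by norm_num)
    · have h1 : 18 * (ε / 18) ≤ ε := by linarith
      exact ⟨fun q' => ⟨(hk.1 q').1, (hk.1 q').2.trans h1⟩,
        fun q => ⟨(hk.2 q).1, (hk.2 q).2.trans h1⟩⟩
    · intro q' q
      have := hw0 q'.2 q.2
      split_ifs
      · exact le_rfl
      · positivity
    · rintro ⟨c', i⟩ ⟨c, j⟩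
      dsimp only
      have hwx := hw0 i j
      by_cases h1 : (c, j) ∈ Finset.range (Ks + 1) ×ˢ Finset.range n₁ ∨ h j c' c = 0
      · rw [if_pos h1]
        split_ifs
        · simp
        · positivity
      · rw [if_neg h1]
        obtain ⟨hq, hne⟩ := not_or.1 h1
        rw [if_neg (not_lt.2 (hout c' c j hq hne))]
    · intro i j
      split_ifs
      · exact le_rfl
      · exact hw0 i j
    · intro i j c T
      rw [← Finset.sum_mul, ← Finset.sum_mul]
      have h1 := hrow j c T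
      constructor <;> linarith [h1.1, h1.2]
    · intro i T
      constructor
      · by_cases hi : j₀ ≤ i
        · refine le_trans ?_ (hw4 i hi)
          refine le_trans ?_ ((hw2 i).sum_le_tsum T fun j _ => hw0 i j)
          refine Finset.sum_le_sum fun j _ => ?_
          split_ifs
          · exact hw0 i j
          · exact le_rfl
        · have h1 : ∑ j ∈ T, (if j < n₁ then 0 else w i j)
              = ∑ j ∈ T.filter (fun j => ¬ j < n₁), w i j := by
            rw [Finset.sum_filter]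
            refine Finset.sum_congr rfl fun j _ => ?_
            by_cases h : j < n₁ <;> simp [h]
          rw [h1]
          refine hn i _ fun j hj => ?_
          have h2 := (Finset.mem_filter.1 hj).2
          have h3 := hn₁n i (by omega)
          omega
      · by_cases hi : i < n₁
        · simp only [if_pos hi, Finset.sum_const_zero]
          exact hε₁.le
        · simp only [if_neg hi]
          refine le_trans ?_ (hw5 i (by omega))
          exact (hw3 i).sum_le_tsum T fun j _ => hw0 j i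

end

end Pool.Agent.H68.BDFP
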